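import Pool.Agent.MWGN.Defs
import Pool.Agent.MWZ.Defs

/-!
# MWGN, part A: rigidity, the identity kappa, words (rows)

MP_23468a_al, necessity in the world `xyx ≈ xyx^2`.  Every row is self contained, its complete proof
is in the docstring.  Tools: `RR.append`, `RR.sub`, `RR.filter`, `RR.symm`, `RR.refl`, `β.trans`;
`MWF.POW`, `CTT`, `SIM` (statements in MWF/Stmts.lean, proofs on main); the lemmas on `pre` in
MWK/Defs.lean; `nn w c q = (pre w q).count c`.
-/

namespace Pool.Agent.MWGN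

open Pool.Agent.Helper14_MV Pool.Agent.Helper2_MV
open Pool.Agent.MWK (pre Gw)
open Pool.Agent.MWF (Ap gaml)

/-- CLS (medium, uses MWF.POW, MWF.CTT, MWF.SIM).  One letter words with one simple letter.
Proof.  `n := a + b`, `n' := a' + b'`.  By CTT and SIM (both directions): `n = 0 ↔ n' = 0`,
`n = 1 ↔ n' = 1`.  `n = 0`: clear.  `n = 1`: if `(a,b) ≠ (a',b')` then `[0,1] ~ [1,0]` (symmetry), so
`[0,1,0] ~ [0,0,1] ~ [0,0,0,0,1] ~ [0,0,1,0,0]` (POW), excluded by `nb`.  `n, n' ≥ 2`: the word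
`0^a 1 0^b` is equivalent to one of `A0 = [1,0,0]` (`a = 0`), `A1 = [0,1,0]` (`a = 1`),
`A2 = [0,0,1]` (`a ≥ 2`, `b = 0`), `A3 = [0,0,1,0]` (`a ≥ 2`, `b ≥ 1`) by POW and `gm`
(`0 1 0^b ~ 0 1 0`).  No two of them are equivalent: `A1 ~ A3`: excluded by `nb`
(`A3 ~ [0,0,1,0,0]` by `gm` with `[0]` in front); `A2 ~ A3` is `E0`; `A1 ~ A2`: put `[0]` in front:
`A3 ~ A2` (POW); `A0 ~ A1`: put `[0]` in front: `A1 ~ A3`; `A0 ~ A2`: `[0]` in front: `A1 ~ A2`;
`A0 ~ A3`: `[0]` in front: `A1 ~ A3`. -/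
def ClsStmt : Prop := ∀ β : FIC, Gw β → ¬ E0 β → ∀ a b a' b' : ℕ,
  RR β (List.replicate a 0 ++ 1 :: List.replicate b 0)
    (List.replicate a' 0 ++ 1 :: List.replicate b' 0) →
      (a = 0 ↔ a' = 0) ∧ (a = 1 ↔ a' = 1) ∧ (b = 0 ↔ b' = 0)

/-- OLR (medium, uses CLS, MWF.CTT, MWF.SIM).  Position of a letter relative to a simple letter.
Proof.  `w'.count s = 1` (SIM).  `RR.filter (fun d => d = c ∨ d = s)` and
`RR.sub (c ↦ [0], s ↦ [1])` (other letters to `[]`) give
`RR β (0^a 1 0^b) (0^a' 1 0^b')`, `a = nn w c s`, `a + b = w.count c`, the same for `w'`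
(write `w = pre w s ++ s :: B`, `MWK.mem_split`; `s ∉ B` because `w.count s = 1`).  Apply CLS;
`nn w c s = w.count c ↔ b = 0`. -/
def OlrStmt : Prop := ∀ β : FIC, Gw β → ¬ E0 β → ∀ w w' : List ℕ, RR β w w' → ∀ c s : ℕ,
  w.count s = 1 → c ≠ s →
    (nn w c s = 0 ↔ nn w' c s = 0) ∧ (nn w c s = 1 ↔ nn w' c s = 1) ∧
      (nn w c s = w.count c ↔ nn w' c s = w'.count c)

/-- TLW (medium, uses MWF.POW).  The two letter words of TLR.  Letters `c = 0`, `z = 1`, `s = 2`,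
`t = 3`.  Tools: `c` not the first occurrence: `c ~ cc` (`gm`: `0 u 0 ~ 0 u 0 0` for every word
`u`).  (1) Prepend `[0,0]` and use POW, `gm`: `[0,0,1,2,1] ~ [0,0,1,0,2,1]`, that is `A0`.  (The tail
`1^k ~ 1` since `1` occurs before.)  (2) Suppose `a' ≥ 1`.  Prepend `[0,3]` (then rename, `P0` is
written with `t = 2`, `s = 3`): left side `~ 0 3 1 0 2 1`.  If `b' ≥ 1` the right side is
`~ 0 3 0 1 0 2 1`, this is `P0`.  If `b' = 0`: right side `~ 0 3 0 1 2 1` (`a' ≥ 2` or `a' ≥ 1`, all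
`0` are not first).  Also, prepending `[0,0]` instead: `[0,0,1,0,2,1] ~ [0,0,1,2,1]`, so `A0` holds;
so `0 3 0 1 2 1 ~ 0 3 0 0 1 2 1 ~ 0 3 0 0 1 0 2 1 ~ 0 3 0 1 0 2 1`, and `P0` holds in this case too.
(3) The same: suppose `a' ≥ 1`.  `b' ≥ 1`: `P0` directly.  `b' = 0`: delete `3` and prepend `[0,0]`:
`[0,0,1,0,2,1] ~ [0,0,1,2,1]`: `A0`, then as in (2). -/
def TlwStmt : Prop := ∀ β : FIC, Gw β → ∀ a b k a' b' k' : ℕ, 1 ≤ k → 1 ≤ k' →
  (2 ≤ a → 1 ≤ b' → RR β (List.replicate a 0 ++ 1 :: 2 :: List.replicate k 1)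
    (List.replicate a' 0 ++ 1 :: (List.replicate b' 0 ++ 2 :: List.replicate k' 1)) → A0 β) ∧
  (2 ≤ b → 1 ≤ a' → 2 ≤ a' + b' → RR β (1 :: (List.replicate b 0 ++ 2 :: List.replicate k 1))
    (List.replicate a' 0 ++ 1 :: (List.replicate b' 0 ++ 2 :: List.replicate k' 1)) → P0 β) ∧
  (1 ≤ b → 1 ≤ a' → RR β (0 :: 3 :: 1 :: (List.replicate b 0 ++ 2 :: List.replicate k 1))
    (0 :: 3 :: (List.replicate a' 0 ++ 1 :: (List.replicate b' 0 ++ 2 :: List.replicate k' 1))) →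
      P0 β)

/-- TLR (medium, uses OLR, TLW, MWF.CTT, MWF.SIM).  Position of a letter `c` relative to a light
letter `z`: `z` occurs once in front of the simple letter `s` and again behind it, all `c` are in
front of `s`.  (T) not `A0`: all `c` in front of `z` is kept; (T0) not `P0`: no `c` in front of
`z` is kept; (T1) not `P0`: if `c` occurs once in front of a simple letter `t`, and `t` is in
front of `z`, then exactly one `c` in front of `z` is kept.
Proof.  By OLR (for `s`, `t`) and SIM `w'` satisfies the same assumptions.  Filter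
`{c, z, s}` (T, T0), `{c, z, s, t}` (T1) and rename `c ↦ 0, z ↦ 1, s ↦ 2, t ↦ 3`: the filtered word of
`w` is `0^a 1 0^b 2 1^k` with `a = nn w c z`, `a + b = w.count c ≥ 2`, `k = w.count z - 1 ≥ 1` (in
case T1: `0 3 0^(a-1) 1 0^b 2 1^k`, since `nn w z t = 0`), in the same way `w'`.  If the claim fails
apply TLW.  (Distinctness: `z ≠ s`, `c ≠ s`, `t ≠ c, z` by the counts, `c ≠ z` since
`nn w c s = w.count c ≥ 2` and `nn w z s = 1`; `t ≠ s` in T1 since `nn w c t = 1 ≠ nn w c s`.)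
In T1: `t ∈ pre w z` and `t ∈ pre w' z` because `nn w z t = 0` (`MWK.pre_total`). -/
def TlrStmt : Prop := ∀ β : FIC, Gw β → ¬ E0 β → ¬ P0 β → ∀ w w' : List ℕ, RR β w w' →
  ∀ c z s : ℕ, w.count s = 1 → 2 ≤ w.count c → 2 ≤ w.count z → nn w z s = 1 →
    nn w c s = w.count c →
      (¬ A0 β → nn w c z = w.count c → nn w' c z = w'.count c) ∧
      (nn w c z = 0 → nn w' c z = 0) ∧
      (∀ t, w.count t = 1 → nn w c t = 1 → nn w z t = 0 → nn w c z = 1 → nn w' c z = 1)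

/-- WCV (medium, uses OLR, TLR, MWF.CTT, MWF.SIM).  The core conditions are kept by `β`.
Proof.  `WC`: field by field.  Counts `= 1`: SIM; counts `≥ 2`: SIM for `RR.symm` and CTT.  Fields
with `a`, `b` (simple letters): OLR (`c ≠ s` because the counts are different or, for
`nn w b a = 0`, by `Ns`).  `xl`: TLR (T) with `s = b`.  `yl`: TLR (T1) with `s = b`, `t = a`
(`nn w y a = 1`, `nn w (L i) a = 0`).  `cl0`: TLR (T0), `cl1`: TLR (T).  `WT`: OLR and SIM only. -/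
def WcvStmt : Prop := ∀ β : FIC, Gw β → ¬ E0 β → ¬ P0 β → ¬ A0 β → ∀ (ν : Nm) (τ : List ℕ)
  (m nc : ℕ), Ns ν m → nc ≤ m + 1 → ∀ w w' : List ℕ, RR β w w' →
    (WC ν m nc w → WC ν m nc w') ∧ (WT ν τ m w → WT ν τ m w')

/-- KAR (medium).  `x^2zsz ≈ x^2zxsz` implies `kappa`.
Proof.  All with words.  (i) `gm`: `X u X ~ X u X X` for all words `X, u`.  (ii) `c` of `Gz`:
`XX CC ~ CC XX`.  (iii) `A0`: `XX Z s Z ~ XX Z X s Z`.  Let `P` be `XY` or `YX`,
`W_j := P A X bd_j R_j`, where `bd_j = bd L C j` and `kr` is `A X bd_j R_j` (`R_j` begins with `L_j`,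
`bd_(j+1) = bd_j L_j C_j C_j`).  Claim: `P A X bd_j R_j ~ P A X bd_j X R_j` for `j ≤ m`: `j = 0`: `X`
occurs in `P`: `X ~ X X`.  Step: `bd_j X L_j C_jC_j R_(j+1)`: `X ~ XX` (`X` occurs in front),
`XX L_j s L_j ~ XX L_j X s L_j` with `s = C_jC_j ..` up to the tail of `L_j` (`L_j` is in `R_(j+1)`
since `j ∈ τ`, `Tau`), then `L_j X C_jC_j ~ L_j XX C_jC_j ~ L_j C_jC_j XX ~ L_j C_jC_j X`, and
`bd_j X ~ bd_j` back (claim for `j`).  In the same way behind `L_m`: `P A X bd_m L_m Y .. ~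
P A X bd_m L_m X Y ..`.  Now `X Y t X Y ~ Y X t X Y` (`k`) with `t = A X bd_m L_m`, and back. -/
def KarStmt : Prop := ∀ β : FIC, Gz β → A0 β → ∀ (m : ℕ) (τ : List ℕ), Tau τ m → Kap β τ m

/-- KPR (medium).  `xtzxsz ≈ xtxzxsz` implies `kappa`.
Proof.  As KAR with `Y` from the right: `P A X bd_m L_m Y B ..`: `P0` : `Y t L_m Y s L_m ~
Y t Y L_m Y s L_m` (`Y` occurs in `P`): `Y` may be inserted in front of `L_m`, then
`C_jC_j Y ~ C_jC_j YY ~ YY C_jC_j ~ Y C_jC_j` (`Y` occurs in `P`, so `Y ~ YY`), the `Y` behind `L_j`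
gives by `P0` a `Y` in front of `L_j`, and so on: `P A X bd_j L_j .. ~ P A X Y bd_j L_j ..`.  So
`kr ~ A X Y bd_m L_m Y ..` in this context, and `X Y A X Y ~ Y X A X Y` by `k`. -/
def KprStmt : Prop := ∀ β : FIC, Gz β → P0 β → ∀ (m : ℕ) (τ : List ℕ), Tau τ m → Kap β τ m

/-- SRT (easy-medium).  A list whose letters are in a duplicate free list `M` and occur in the order
of `M` is a product of powers.
Proof: induction on `M`, `M = d :: M'`.  `l = replicate k d ++ l'` with `k = l.count d`,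
`d ∉ l'`: `l = l.takeWhile (· = d) ++ l.dropWhile (· = d)`; if the second part is `e :: r` then
`e ≠ d`, `e ∈ M'`, and the assumption (`d` before `e`) with `u = takeWhile ++ [e]` gives `d ∉ r`.
Then the induction assumption for `l'`, `M'` (the condition is inherited by `l'`, for
`u = replicate k d ++ u'`) and `l'.count c = l.count c` for `c ∈ M'`. -/
def SrtStmt : Prop := ∀ (M l : List ℕ), M.Nodup → (∀ c ∈ l, c ∈ M) →
  M.Pairwise (fun c d => ∀ u v : List ℕ, l = u ++ v → d ∈ u → c ∉ v) →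
    l = M.flatMap (fun c => List.replicate (l.count c) c)

/-- NOA (medium-hard, uses SRT).  **Literal form of the `W`-part.**
Proof.  Let `v = w.filter (· ∈ nl ν m)`.  For `c, q ∈ nl ν m` with `q ∈ w`: `pre v q` is the filtered
list of `pre w q`, so `nn v c q = nn w c q` and `v.count c = w.count c`.  `v = v0 ++ a :: v1' `,
`v0 = pre v a`, `v1' = v1 ++ b :: v2` with `v0 ++ a :: v1 = pre v b` (`MWK.mem_split`, `a ∈ pre w b`
since `nn w b a = 0`).  (1) `v0`: its letters are `x` once, `y` once, no other one (`b`: `ob`; `S i`: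
`b ∈ pre w (S i)` (`oS`), so `S i ∉ pre w b ∋ a`; `L i`: `l0`; `C i`: `c0`).  So `v0 = [x,y]` (if
`nn w x y = 1`) or `[y,x]` (if `nn w x y = 0`).  (2) `v1`: SRT with
`M = x :: (L 0, C 0, L 1, C 1, .., L (m-1), C (m-1)) ++ [L m, y]`.  Counts in `v1`: `x ≥ 1`,
`L i`: 1, `C i ≥ 2`, `y ≥ 1`.  Order: every `x` is in front of the first `L i` (`xl`), every `y` of
`v1` is behind the first `L i` (`yl` : one `y` in front of `L i`, this is the one of `v0`), `C i` is
behind `L j`, `j ≤ i`, and in front of `L j`, `j > i`, the light `L i` is in front of `L j` for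
`i < j ≤ m` because `C i` is between them; `C i` before `C j` for `i < j` because `L j` is between
them; `x` before `C i`, `y` behind `C i` in the same way (`L i`, `L (i+1)`).  (3) `v2`: SRT with
`M = τ.flatMap (fun i => [S i, L i])`; the `L i` of `v2` are the not first ones, behind `S i`
(`lt`), in front of `S j` for `j` behind `i` in `τ` (`lT`); `S i` in front of `S j` (`os`); `L i` in
front of `L j`: `S j` is between.  `x, y, C i, a, b` do not occur in `v2` (`xb`, `yb`, `cb`, counts). -/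
def NoaStmt : Prop := ∀ (ν : Nm) (τ : List ℕ) (m nc : ℕ), Ns ν m → Tau τ m → m ≤ nc →
  ∀ w : List ℕ, WC ν m nc w → WT ν τ m w →
    ∃ (i j : ℕ) (e f : ℕ → ℕ), 1 ≤ i ∧ 1 ≤ j ∧ (∀ r < m, 2 ≤ e r) ∧ (∀ r ≤ m, 1 ≤ f r) ∧
      ∃ P : List ℕ, ((nn w ν.x ν.y = 1 ∧ P = [ν.x, ν.y]) ∨ (nn w ν.x ν.y = 0 ∧ P = [ν.y, ν.x])) ∧
        w.filter (fun c => decide (c ∈ nl ν m)) = P ++ ν.a :: (List.replicate i ν.x ++
          ((List.range m).flatMap (fun r => ν.L r :: List.replicate (e r) (ν.C r)) ++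
            ν.L m :: (List.replicate j ν.y ++ ν.b ::
              τ.flatMap (fun r => ν.S r :: List.replicate (f r) (ν.L r)))))

/-- NOB (medium, uses MWF.POW).  Normalisation of the exponents.
Proof.  POW for `C r` (`e r ≥ 2`: `C^e ~ CC`).  `gm` in the form `c u c^k ~ c u c`, `k ≥ 1`, for
`x` (its first occurrence is in `P`), `y`, and for every `L r` (its first occurrence is in the
first part, `r ≤ m` by `Tau`).  Use congruence for `flatMap` over `range m` and over `τ`: induction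
on an initial part of `τ`. -/
def NobStmt : Prop := ∀ β : FIC, Gw β → ∀ (ν : Nm) (τ : List ℕ) (m : ℕ), Tau τ m →
  ∀ (i j : ℕ) (e f : ℕ → ℕ), 1 ≤ i → 1 ≤ j → (∀ r < m, 2 ≤ e r) → (∀ r ≤ m, 1 ≤ f r) →
    ∀ P : List ℕ, ν.x ∈ P → ν.y ∈ P →
      RR β (P ++ ν.a :: (List.replicate i ν.x ++
          ((List.range m).flatMap (fun r => ν.L r :: List.replicate (e r) (ν.C r)) ++
            ν.L m :: (List.replicate j ν.y ++ ν.b ::
              τ.flatMap (fun r => ν.S r :: List.replicate (f r) (ν.L r))))))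
        (P ++ krl ν τ m)

/-- REN (medium).  Renaming: `kappa` for one system of different names implies `kappa`.
Proof.  `RR.sub f` with `f x = X`, `f y = Y`, `f a = A`, `f b = B`, `f (S i) = S' i` (`i ≤ m`),
`f (L i) = L' i` (`i ≤ m`), `f (C i) = C' i` (`i < m`), e.g. `f c = if c = x then X else if c = y then Y
else if c = a .. else if h : ∃ i ≤ m, c = S i then S' h.choose else if h : ∃ i ≤ m, c = L i then
.. else if h : ∃ i < m, c = C i then .. else []`; `Nodup` gives the values.  The image of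
`[x] ++ ([y] ++ krl ν τ m)` is `X ++ (Y ++ kr X Y A B S' L' C' τ m)` (`i ∈ τ → i ≤ m`). -/
def RenStmt : Prop := ∀ β : FIC, ∀ (ν : Nm) (τ : List ℕ) (m : ℕ), Tau τ m → (nl ν m).Nodup →
  RR β ([ν.x, ν.y] ++ krl ν τ m) ([ν.y, ν.x] ++ krl ν τ m) → Kap β τ m

/-- DST (easy-medium).  The names of a word with `WC`, `WT` are different.
Proof.  `a, b, S i` are different by `Ns`; their counts are 1, the counts of `x, y, L i, C i` are
`≥ 2`.  `x ≠ y`: `nn w x (L 0) = w.count x ≥ 2`, `nn w y (L 0) = 1`.  `x ≠ L i`: `nn w x a = 1`,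
`nn w (L i) a = 0`; the same for `y ≠ L i`, `x ≠ C i`, `y ≠ C i`.  `C i ≠ L j`:
`nn w (C i) b = w.count (C i) ≥ 2`, `nn w (L j) b = 1`.  `C i ≠ C j`, `i < j < m`:
`nn w (C i) (L j) = w.count (C i) ≥ 2` and `nn w (C j) (L j) = 0`.  `L i ≠ L j`, `i < j ≤ m`:
`nn w (C i) (L i) = 0` and `nn w (C i) (L j) ≥ 2`.  (`List.nodup_append`, `List.nodup_map_iff_inj_on`
with `List.nodup_range`.) -/
def DstStmt : Prop := ∀ (ν : Nm) (τ : List ℕ) (m nc : ℕ), Ns ν m → Tau τ m → m ≤ nc →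
  ∀ w : List ℕ, WC ν m nc w → WT ν τ m w → (nl ν m).Nodup

/-- SPV (easy-medium, uses NOA, NOB, REN, DST, WCV, KAR, KPR).  **The special order is kept.**
Proof.  `¬ Kap` gives `¬ A0` (KAR), `¬ P0` (KPR), `¬ E0` (`E0` implies `A0`: append `[2, 1]`).
`w'` satisfies `WC`, `WT` (WCV).  Suppose `nn w' x y ≠ 1`: then it is 0 (NOA for `w'`).
`RR.filter (· ∈ nl ν m)` for `w, w'`, NOA and NOB for both: `RR β ([x, y] ++ krl) ([y, x] ++ krl)`.
REN and DST: `Kap β τ m`, excluded. -/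
def SpvStmt : Prop := ∀ β : FIC, Gz β → ∀ (ν : Nm) (τ : List ℕ) (m nc : ℕ), Ns ν m → Tau τ m →
  m ≤ nc → nc ≤ m + 1 → ¬ Kap β τ m → ∀ w w' : List ℕ, RR β w w' → WC ν m nc w → WT ν τ m w →
    nn w ν.x ν.y = 1 → nn w' ν.x ν.y = 1

/-- VCL (easy, uses WCV, SPV, KAR, KPR).  `β` keeps `Kb` and `Kc`.
Proof.  `Ns N1 m`, `Ns (N2 m) m`: the numbers `2, 3, 5 + 6 i` and `5 + 6 m, 4, 8 + 6 i` are
different.  `K0`: WCV four times.  Special order: SPV with `N1`, `nc = m` and `N2 m`,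
`nc = m + 1` (`(N2 m).x = N1.L m`, `(N2 m).y = N1.L (m+1)`). -/
def VclStmt : Prop := ∀ β : FIC, Gz β → ∀ (τ : List ℕ) (m : ℕ), Tau τ m → ¬ Kap β τ m →
  ∀ w w' : List ℕ, RR β w w' → (Kb τ m w → Kb τ m w') ∧ (Kc τ m w → Kc τ m w')

/-- PRF (easy-medium).  `pre` and `flatMap`.
Proof.  Induction on `τ`: `τ = i :: τ'`; `i = j`: both sides are `[]` (`pre (i :: τ') i = []`);
`i ≠ j`: `S j ≠ S i`, `S j ∉ T i`, so `S j` is not in the block of `i`: `MWK.pre_append`. -/
def PrfStmt : Prop := ∀ (S : ℕ → ℕ) (T : ℕ → List ℕ) (τ : List ℕ) (j : ℕ), j ∈ τ →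
  (∀ i ∈ τ, i ≠ j → S i ≠ S j) → (∀ i ∈ τ, i ≠ j → S j ∉ T i) → ∀ R : List ℕ,
    pre (τ.flatMap (fun i => S i :: T i) ++ R) (S j) = (pre τ j).flatMap (fun i => S i :: T i)

/-- PRB (easy-medium).  `pre` in `bd`.  Proof: induction on `m` with `List.range_succ` and
`MWK.pre_append`, `MWK.pre_append_mem`: `L j` is not in `bd (sg L) (sg C) j`. -/
def PrbStmt : Prop := ∀ (L C : ℕ → ℕ) (m j : ℕ), j < m → (∀ i < m, ∀ i' < m, L i = L i' → i = i') →
  (∀ i < m, ∀ i' < m, C i ≠ L i') → ∀ R : List ℕ,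
    pre (bd (sg L) (sg C) m ++ R) (L j) = bd (sg L) (sg C) j

/-- SA1 (medium, uses PRF, PRB).  The word `w0 τ m true true` satisfies the conditions of level 1.
Proof.  Direct computation: all letters are explicit numbers.  Write the word as
`[0,1] ++ 2 :: 0 :: bd ++ [L m, L (m+1)] ++ 1 :: 3 :: (tails 1) ++ 4 :: (tails 2)`.
`pre w 2 = [0,1]`, `pre w 3 = [0,1,2,0] ++ bd ++ [L m, L (m+1), 1]`,
`pre w (S j) = [0,1,2,0] ++ bd ++ [L m, L (m+1), 1, 3] ++ (pre τ j).flatMap ..` (PRF),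
`pre w (L j) = [0,1,2,0] ++ bd_j` for `j < m` (PRB), `.. ++ bd` for `j = m`, `.. ++ bd ++ [L m]` for
`j = m + 1`.  Counts: `bd` contains `L i` once and `C i` twice (`i < m`); tails 1 contain `L i` once
(`i ≤ m + 1`) in the block of `i` (of `m` for `m + 1`), tails 2 contain none of them. -/
def Sa1Stmt : Prop := ∀ (τ : List ℕ) (m : ℕ), Tau τ m →
  WC N1 m m (w0 τ m true true) ∧ WT N1 τ m (w0 τ m true true) ∧ nn (w0 τ m true true) 0 1 = 1

/-- SA2 (medium, uses PRF, PRB).  The same for level 2.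
Proof.  As SA1.  `pre w (S m)` (level 1) contains `L m`, `L (m+1)` (level 1) once each and no letter
of level 2; the block of `m` in tails 1 is `L m, bd2, L2 (m+1), L (m+1)`, where `bd2` is the `bd` of
level 2 with `m + 1` pairs; split `τ.flatMap .. = (pre τ m).flatMap .. ++ (S m :: T1 m m) ++ ..`
(`MWK.mem_split`).  `nn w (L m) (L (m+1)) = 1` (level 1). -/
def Sa2Stmt : Prop := ∀ (τ : List ℕ) (m : ℕ), Tau τ m →
  WC (N2 m) m (m + 1) (w0 τ m true true) ∧ WT (N2 m) τ m (w0 τ m true true) ∧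
    nn (w0 τ m true true) (N1.L m) (N1.L (m + 1)) = 1

/-- CMW (medium-hard).  `kappa` for all orders and `x W x ≈ x^2 W x` (`I1`) imply `Cm^w`.
Proof.  Let `w = p x y q x c y r` (as in `Sys.F`), all letters of `c` occur at least twice in `w`.
Write `U := p x y q x` resp. `p y x q x` (both have the same letters).  (i) Doubling: in
`U ++ c ++ y :: r` every occurrence of a letter `d` in `c` with `d ∉ r` or not the first
occurrence in `U ++ c` may be doubled: if `d` occurs before, by `gm`; if not and `d ∉ r`, `d ≠ y` (`y`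
occurs in `U`), then `d` occurs again later in `c`, and `I1` gives `d u d ~ dd u d` (the letters of `u`
are letters of `c`, so they occur at least twice).  (ii) Let `z_0, .., z_n` (in this order) be the
letters of `c` which do not occur in `U` and occur in `r`; `c = u_0 z_0 u_1 z_1 .. z_n u_(n+1)` with
the first occurrences `z_i`.  By (i) `u_i ~ dbl u_i` in this context (`MWF.dbl`), and
`dbl u ~ dbl u ++ dbl u` (squares commute by `c` of `Gz`, `x^4 ~ x^2`), so `u_i ~ u_i u_i` in the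
context.  (iii) `x u_0 ~ x x (dbl u_0) ~ (dbl u_0) x x ~ (dbl u_0) x` (`x` occurs in `U`), and
`u_(n+1) y ~ (dbl u_(n+1)) y y ~ y y (dbl u_(n+1)) ~ y (dbl u_(n+1))`.  (iv) No `z_i`: then
`p x y q (dbl u_0) x y r`, use `k` (`X Y t X Y ~ Y X t X Y`).  Otherwise with `m = n`:
`r' = (dbl u_(n+1)) r = q_0 z_(σ 0) q_1 z_(σ 1) .. z_(σ n) q_(n+1)` where the `z_i` are the first
occurrences of these letters in `r'` in the order `τ = [σ 0, .., σ n]` (induction on `r'`); apply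
`Kap β τ m` with `X = [x]`, `Y = [y]`, `A = q ++ dbl u_0`, `B = []`, `S (σ j) = q_j`,
`L i = [z_i]`, `C i = u_(i+1)`, and `p` in front, `q_(n+1)` behind.  Then all steps back. -/
def CmwStmt : Prop := ∀ β : FIC, Gz β → MWZ.I1 1 (RR β) →
  (∀ (m : ℕ) (τ : List ℕ), Tau τ m → Kap β τ m) → MVO.Sys.F (RR β)

end Pool.Agent.MWGN
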