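import Pool.Agent.MWGN.DefsC
import Pool.Agent.MWGN.StmtsA

/-!
# MWGN, part C: the crossing hull pentagon (rows)

MP_23468a_al, necessity in the world `xyx ≈ xyx^2`: the hull of a heavy letter is filled.  Complete
proofs in the docstrings.  `u = A E M E R`, `v = A E N E R`, `E = e e`, `N` is `M` with words `E`
inserted.
-/

namespace Pool.Agent.MWGN

open Pool.Agent.Helper14_MV Pool.Agent.Helper2_MV
open Pool.Agent.MWK (pre Gw)
open Pool.Agent.MWF (Ap gaml)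

/-- INP (medium).  Insertion and `pre`.
Proof: induction on `Ins`.  `nil`: `k' = 0`.  `cons c`: `q = c`: both `pre` are `[]`, `k' = 0`;
`q ≠ c`: induction.  `ins`: `q ∉ E`, so `pre (E ++ N) q = E ++ pre N q`, `k' + 1`.  The last part
(monotone): in the same induction with two letters `q, q'`; `q` in front of `q'` in `M`. -/
def InpStmt : Prop := ∀ (E M N : List ℕ) (k : ℕ), Ins E M N k →
  (∀ c, N.count c = M.count c + k * E.count c) ∧ (∀ q, q ∉ E → (q ∈ N ↔ q ∈ M)) ∧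
  (∀ q, q ∉ E → ∃ k' ≤ k, (q ∉ M → k' = k) ∧
    ∀ c, (pre N q).count c = (pre M q).count c + k' * E.count c) ∧
  (∀ q q', q ∉ E → q' ∉ E → q ∈ pre M q' → ∃ k₁ k₂, k₁ ≤ k₂ ∧
    (∀ c, (pre N q).count c = (pre M q).count c + k₁ * E.count c) ∧
    (∀ c, (pre N q').count c = (pre M q').count c + k₂ * E.count c))

/-- INC (medium, uses INP).  Insertion keeps all conditions, except the last type, which is kept by
deletion.
Proof.  `E = e ++ e`.  `q ∈ A ++ E`: `pre u q = pre v q = pre (A ++ E) q`.  `q ∉ A ++ E`: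
`pre u q = A ++ E ++ pre (M ++ E ++ R) q`, and `pre (M ++ ..) q = pre M q` if `q ∈ M` (then
`q ∈ N`), otherwise `M ++ pre (E ++ R) q`, in the same way `v`, so by INP
`nn v c q = nn u c q + k' * E.count c` with `k' ≤ k`, and `k' = k` if `q ∉ M`.  Let `c ∉ e`: nothing
changes.  Let `c ∈ e`: `E.count c ≥ 2`, `u.count c ≥ 4`, `v.count c ≥ 4`.  If `q ∉ A ++ E` then
`nn u c q ≥ 2` and `nn v c q ≥ 2`, so `nn = 0` and `nn = 1` are possible only for `q ∈ A ++ E`, where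
`pre u q = pre v q`.  `nn u c q = u.count c` is impossible for `q ∈ A ++ E` and for `q ∈ M` (the right
`E` contains `c`), in the same way for `v`; for `q ∉ A ++ E ++ M`: `k' = k`.  Last claim: `q, q'` in
`A ++ E`: clear; `q ∈ A ++ E`, `q' ∉ A ++ E`: `k' = 0` for `q`; both not: if one of them is in `pre` of
the other one use the monotone part of INP (or `k' = k` if it is not in `M`); with `q` in front of
`q'`: `nn u c q ≤ nn u c q'` and `nn v c q' - nn v c q ≥ nn u c q' - nn u c q`. -/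
def IncStmt : Prop := ∀ (e A M N R : List ℕ) (k : ℕ), Ins (e ++ e) M N k → ∀ u v : List ℕ,
  u = A ++ ((e ++ e) ++ (M ++ ((e ++ e) ++ R))) → v = A ++ ((e ++ e) ++ (N ++ ((e ++ e) ++ R))) →
    (∀ c, u.count c = 1 ↔ v.count c = 1) ∧ (∀ c, 2 ≤ u.count c ↔ 2 ≤ v.count c) ∧
    (∀ c q, nn u c q = 0 ↔ nn v c q = 0) ∧ (∀ c q, nn u c q = 1 ↔ nn v c q = 1) ∧
    (∀ c q, nn u c q = u.count c ↔ nn v c q = v.count c) ∧
    (∀ c q q', q ∈ u → q' ∈ u → nn v c q = nn v c q' → nn u c q = nn u c q')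

/-- KFI (easy, uses INC).  `KF` is kept in both directions, `Kx`, `Ky` by deletion.
Proof: field by field with INC (`1 ≤ nn` is `nn ≠ 0`, `nn < count` is `nn ≠ count`, since always
`nn ≤ count`). -/
def KfiStmt : Prop := ∀ (τ : List ℕ) (r : ℕ) (e A M N R : List ℕ) (k : ℕ),
  Ins (e ++ e) M N k → ∀ u v : List ℕ,
    u = A ++ ((e ++ e) ++ (M ++ ((e ++ e) ++ R))) → v = A ++ ((e ++ e) ++ (N ++ ((e ++ e) ++ R))) →
      (KF τ r u ↔ KF τ r v) ∧ (Kx τ r v → Kx τ r u) ∧ (Ky τ r v → Ky τ r u)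

/-- MPF (medium, uses INP).  **Positions, if the insertion is between `q` and `q'`.**
Proof.  `c ∈ e`: otherwise `nn v c q = nn u c q` for all `q` (INP).  (a) `z ∉ e` for every `z` with
`nn u z b = 1`: all four copies of `e` contain `c`, all `c` are in front of `b`, so three copies are
completely in front of `b`; `z ∈ e` would give `nn u z b ≥ 3`.  (b) `b ∈ R`: `b ∉ e`, `b ∉ M`
(counts), `b ∉ A` (the `c ∈ e` are in front of `b`), `b ∈ u`.  (c) `q ∉ A`: otherwise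
`pre u q = pre v q = pre A q`, and `q'`: if `q' ∈ A` the same, contradiction to `nn v c q ≠ nn v c q'`;
if `q' ∉ A`, `q' ∉ e` by (a), `pre u q'` contains `A ++ E`, so `nn u c q' > nn u c q`.
(d) `q ∈ M`: otherwise `q ∉ A, e, M` and (since `q` is in front of `q'`) `q' ∉ A, e, M`, so by INP
`nn v c q = nn u c q + k * E.count c`, the same for `q'`: contradiction.  (e) `q' ∈ M`, `q' ∉ A`:
`q ∈ pre u q'` gives `q' ∉ A`; if `q' ∉ M`, then the right `E` (it contains `c`) is in front of `q'` and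
`nn u c q' > nn u c q`.  (f) `z` between `q` and `q'`: `q ∈ pre u z` (or `z = q`) gives `z ∉ A`,
`z ∉ e` by (a), and `z ∈ pre u q'` (or `z = q'`) gives `z ∈ M`; `pre u z = A ++ E ++ pre M z`;
`M.count z ≤ nn u z b = 1` since `pre u b` contains `A E M E`. -/
def MpfStmt : Prop := ∀ (e A M N R : List ℕ) (k : ℕ), Ins (e ++ e) M N k → ∀ u v : List ℕ,
  u = A ++ ((e ++ e) ++ (M ++ ((e ++ e) ++ R))) → v = A ++ ((e ++ e) ++ (N ++ ((e ++ e) ++ R))) →
    (∀ c ∈ M, 2 ≤ u.count c) → ∀ c q q' b : ℕ, u.count b = 1 → nn u c b = u.count c →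
      nn u q b = 1 → nn u q' b = 1 → q ∈ pre u q' → nn u c q = nn u c q' →
        nn v c q ≠ nn v c q' →
          c ∈ e ∧ b ∈ R ∧ ∀ z, (z = q ∨ q ∈ pre u z) → (z = q' ∨ z ∈ pre u q') →
            nn u z b = 1 → z ∉ A ∧ z ∉ e ∧ M.count z = 1 ∧
              pre u z = A ++ ((e ++ e) ++ pre M z)

/-- MCF (medium-strong, uses `cov`).  **Covering.**  `N` lights `l i`, letters `d j` with an occurrence
between the first `l j` and the first `l (j+1)`, all `d j` in front of `b`; the pins `g i` occur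
again in `R`.
Proof.  `cov`.  Order: `nn u (d j) (l j) < nn u (d j) (l (j+1))` gives `l j ∈ pre u (l (j+1))`
(`MWK.pre_of_count`), transitivity (`MWK.pre_trans`), and `pre u (l j) = A ++ pre M (l j)`
(`l j ∉ A`), so `l i ∈ pre M (l j)` for `i < j`.  `l j ∉ h i` since `M.count (l j) = 1`.
(a) If `l j ∈ g i`, then `d j' ∉ g i` for all `j'`: `R = R1 ++ g i ++ R2`; `b ∉ g i` (otherwise it
occurs in `M` and in `R`, `u.count b = 1`); the copy of `l j` in this `g i` is not in front of `b`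
(`nn u (l j) b = 1` and `l j ∈ M` is in front of `b ∈ R`), so `b ∈ R1`, and every letter of this copy
of `g i` is behind `b`; the `d j'` are all in front of `b`.  Pins: `l j, l j' ∈ g i`, `j < j'`: write
`M = U ++ g i ++ V`; `l j, l j' ∉ U` (count 1), so `pre M (l j) = U ++ pre (g i) (l j)`, the same for
`j'`; there is a `d j` in `pre M (l j')` more than in `pre M (l j)`
(`nn u (d j) (l j) < nn u (d j) (l (j+1)) ≤ nn u (d j) (l j')`), so `d j ∈ g i`: contradiction to (a).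
Conclusion `d j ∈ h j`: `M = U ++ (g j ++ (h j ++ (g (j+1) ++ V)))`, `l j ∈ g j`, `l (j+1) ∈ g (j+1)`,
both not in `U` etc.; `pre M (l (j+1)) = U ++ g j ++ h j ++ pre (g (j+1)) (l (j+1))`,
`pre M (l j) = U ++ pre (g j) (l j)`: the surplus `d j` is in `g j ++ h j ++ g (j+1)`, by (a) in
`h j`. -/
def McfStmt : Prop := ∀ (n : ℕ) (A M R u : List ℕ) (l d : ℕ → ℕ) (g h : ℕ → List ℕ) (b : ℕ),
  u = A ++ (M ++ R) → M = gh g h n → u.count b = 1 → b ∈ R →
    (∀ i < n, l i ∉ A ∧ M.count (l i) = 1 ∧ nn u (l i) b = 1) →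
    (∀ j, j + 1 < n → nn u (d j) (l j) < nn u (d j) (l (j + 1)) ∧
      nn u (d j) b = u.count (d j)) →
    (∀ i < n, ∃ R1 R2, R = R1 ++ (g i ++ R2)) → (∀ i < n, ∀ c ∈ h i, 2 ≤ M.count c) →
      (∀ i < n, l i ∈ g i) ∧ (∀ j, j + 1 < n → d j ∈ h j)

/-- ORD (easy).  The order of the lights in a word with `KF`.
Proof.  `L 0` before `L 1`: `y` (`y0`, `y1`, `MWK.pre_of_count`); `L i` before `L (i+1)`, `1 ≤ i ≤ r`:
`C i` (`cl0`, `cl1`, `c2`); `L (r+1)` before `L (r+2)`: `x` (`xr`, `xt`). -/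
def OrdStmt : Prop := ∀ (τ : List ℕ) (r : ℕ) (w : List ℕ), KF τ r w →
  (nn w 1 (NF.L 0) < nn w 1 (NF.L 1)) ∧
  (∀ i, 1 ≤ i → i ≤ r → nn w (NF.C i) (NF.L i) < nn w (NF.C i) (NF.L (i + 1))) ∧
  (nn w 0 (NF.L (r + 1)) < nn w 0 (NF.L (r + 2))) ∧
  (∀ i j, i < j → j ≤ r + 2 → NF.L i ∈ pre w (NF.L j))

/-- STY (medium, uses KFI, MPF, MCF, ORD).  Insertion of `η η` keeps `Kx`.
Proof.  `KF τ r v` by KFI.  Suppose `nn v 0 (L 0) ≠ nn v 0 (L (r+1))`.  MPF with `c = 0`, `q = L 0`,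
`q' = L (r+1)`, `b = 2`.  MCF with `n = r + 2`, `l i = L i`, `d 0 = 1` (the letter `y`), `d j = C j`
(`1 ≤ j ≤ r`), `A := A ++ (η ++ η)`, `R := (η ++ η) ++ R` (ORD; MPF for all `L i`, `i ≤ r + 1`):
`C r = d r ∈ h r = ξ ++ ξ`.  So `C r ∈ ξ`, `C r ∈ A`, but `L r ∉ A`, so `nn u (C r) (L r) ≥ 1`,
contradiction to `cl0`. -/
def StyStmt : Prop := ∀ (τ : List ℕ) (r : ℕ), 1 ≤ r → ∀ (ξ η A M N R u v : List ℕ) (k : ℕ)
  (g h : ℕ → List ℕ), Ins (η ++ η) M N k → u = A ++ ((η ++ η) ++ (M ++ ((η ++ η) ++ R))) →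
    v = A ++ ((η ++ η) ++ (N ++ ((η ++ η) ++ R))) → (∀ c ∈ M, 2 ≤ u.count c) →
      M = gh g h (r + 2) → h r = ξ ++ ξ → (∀ c ∈ ξ, c ∈ A) →
        (∀ i < r + 2, ∃ R1 R2, R = R1 ++ (g i ++ R2)) →
          (∀ i < r + 2, ∀ c ∈ h i, 2 ≤ M.count c) → Kx τ r u → Kx τ r v

/-- STX (medium, uses KFI, MPF, MCF, ORD).  Insertion of `ξ ξ` keeps `Ky`.
Proof.  Suppose `nn v 1 (L 1) ≠ nn v 1 (L (r+2))`.  MPF with `c = 1`, `q = L 1`, `q' = L (r+2)`.
MCF with `n = r + 2`, `l i = L (i+1)`, `d j = C (j+1)` for `j < r`, `d r = 0` (the letter `x`):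
`C 1 = d 0 ∈ h 0 = η ++ η`.  So `C 1 ∈ η`, `C 1 ∈ R`; but all `C 1` are in front of the first `L 2`
(`cl1`), which is in `M`, and `R` is behind it: contradiction. -/
def StxStmt : Prop := ∀ (τ : List ℕ) (r : ℕ), 1 ≤ r → ∀ (ξ η A M N R u v : List ℕ) (k : ℕ)
  (g h : ℕ → List ℕ), Ins (ξ ++ ξ) M N k → u = A ++ ((ξ ++ ξ) ++ (M ++ ((ξ ++ ξ) ++ R))) →
    v = A ++ ((ξ ++ ξ) ++ (N ++ ((ξ ++ ξ) ++ R))) → (∀ c ∈ M, 2 ≤ u.count c) →
      M = gh g h (r + 2) → h 0 = η ++ η → (∀ c ∈ η, c ∈ R) →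
        (∀ i < r + 2, ∃ R1 R2, R = R1 ++ (g i ++ R2)) →
          (∀ i < r + 2, ∀ c ∈ h i, 2 ≤ M.count c) → Ky τ r u → Ky τ r v

/-- STR (medium, uses KFI, MPF, MCF, ORD).  Insertion of `ξ ξ` in a word with `Kx` and `Ky` keeps
`Kx`, if the second content contains `η`.
Proof.  Suppose `nn v 0 (L 0) ≠ nn v 0 (L (r+1))`.  MPF with `c = 0`, `q = L 0`, `q' = L (r+1)`; MCF
as in STY: `L i ∈ g i`, and `d 0 = 1 ∈ h 0 = η ++ η`, so `1 ∈ η`, `1 ∈ h 1`.  `h 1` is between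
`g 1 ∋ L 1` and `g 2 ∋ L 2` (`2 ≤ r + 1`), so `nn u 1 (L 1) < nn u 1 (L 2) ≤ nn u 1 (L (r+2))`,
contradiction to `Ky`. -/
def StrStmt : Prop := ∀ (τ : List ℕ) (r : ℕ), 1 ≤ r → ∀ (ξ η A M N R u v : List ℕ) (k : ℕ)
  (g h : ℕ → List ℕ), Ins (ξ ++ ξ) M N k → u = A ++ ((ξ ++ ξ) ++ (M ++ ((ξ ++ ξ) ++ R))) →
    v = A ++ ((ξ ++ ξ) ++ (N ++ ((ξ ++ ξ) ++ R))) → (∀ c ∈ M, 2 ≤ u.count c) →
      M = gh g h (r + 2) → h 0 = η ++ η → (∀ c ∈ η, c ∈ h 1) →
        (∀ i < r + 2, ∃ R1 R2, R = R1 ++ (g i ++ R2)) →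
          (∀ i < r + 2, ∀ c ∈ h i, 2 ≤ M.count c) → Kx τ r u → Ky τ r u → Kx τ r v

/-- contents of an instance: `C C [y y] [x x]` -/
def dp (f : ℕ → List ℕ) (a s : Bool) (i : ℕ) : List ℕ :=
  f (NF.C (i + 1)) ++ (f (NF.C (i + 1)) ++ ((if a then f 1 ++ f 1 else []) ++
    (if s then f 0 ++ f 0 else [])))

/-- FOF (medium).  **Form of the instances.**
Proof.  `List.flatMap_append`, `List.flatMap_cons`, `gh_succ` (twice, for the last two pins of the
first form), `List.range_succ_eq_map` or `gh` for the first pin of the second form.  Tails: every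
index `i ≤ r + 2` is in `tw τ r` (from `Tau τ r`), so `f (L i)` is a factor of
`((tw τ r).flatMap ..).flatMap f`.  `Ins`: `Ins` is compatible with appending on both sides (prove:
`Ins E M N k → Ins E M' N' k' → Ins E (M ++ M') (N ++ N') (k + k')`, `Ins E M M 0`), then induction
on `r`. -/
def FofStmt : Prop := ∀ (τ : List ℕ) (r : ℕ), 1 ≤ r → Tau τ r → ∀ f : ℕ → List ℕ,
  ∃ R : List ℕ, (∀ i ≤ r + 2, ∃ R1 R2, R = R1 ++ (f (NF.L i) ++ R2)) ∧
    (∀ a s : Bool, (wf τ r a s).flatMap f = (f 0 ++ (f 0 ++ f (NF.L 0))) ++ ((f 1 ++ f 1) ++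
      (gh (fun i => f (NF.L (i + 1))) (fun i => if i < r then dp f a s i else
        if i = r then f 0 ++ f 0 else []) (r + 2) ++ ((f 1 ++ f 1) ++ R)))) ∧
    (∀ a s : Bool, (wf τ r a s).flatMap f = (f 0 ++ f 0) ++
      (gh (fun i => f (NF.L i)) (fun i => if i = 0 then f 1 ++ f 1 else
        if i ≤ r then dp f a s (i - 1) else []) (r + 2) ++ ((f 0 ++ f 0) ++
          (f (NF.L (r + 2)) ++ (f 1 ++ (f 1 ++ R)))))) ∧
    (∀ s : Bool, Ins (f 1 ++ f 1)
      (gh (fun i => f (NF.L (i + 1))) (fun i => if i < r then dp f false s i else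
        if i = r then f 0 ++ f 0 else []) (r + 2))
      (gh (fun i => f (NF.L (i + 1))) (fun i => if i < r then dp f true s i else
        if i = r then f 0 ++ f 0 else []) (r + 2)) r) ∧
    (∀ a : Bool, Ins (f 0 ++ f 0)
      (gh (fun i => f (NF.L i)) (fun i => if i = 0 then f 1 ++ f 1 else
        if i ≤ r then dp f a false (i - 1) else []) (r + 2))
      (gh (fun i => f (NF.L i)) (fun i => if i = 0 then f 1 ++ f 1 else
        if i ≤ r then dp f a true (i - 1) else []) (r + 2)) r)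

/-- CLF (medium, uses FOF, KFI, STY, STX, STR).  **Closure properties.**
Proof.  Put `p` in front and `q` behind the forms of FOF.  The letters of `M` occur at least twice:
pins occur again in `R`, contents are doubled.  Deletion: KFI.  Insertion of `f 1 f 1` (`a`: false to
true): STY with `ξ = f 0`, `η = f 1`, `A = p ++ f 0 ++ f 0 ++ f (L 0)`, `R := R ++ q`.  Insertion of
`f 0 f 0` (`s`: false to true): STX with `A = p`, and STR with `a = true`: `f 1` is in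
`h 1 = dp f true false 0`. -/
def ClfStmt : Prop := ∀ (τ : List ℕ) (r : ℕ), 1 ≤ r → Tau τ r → ∀ (f : ℕ → List ℕ) (p q : List ℕ),
  (∀ s : Bool, Kx τ r (p ++ (wf τ r false s).flatMap f ++ q) ↔
    Kx τ r (p ++ (wf τ r true s).flatMap f ++ q)) ∧
  (∀ a : Bool, Ky τ r (p ++ (wf τ r a false).flatMap f ++ q) ↔
    Ky τ r (p ++ (wf τ r a true).flatMap f ++ q)) ∧
  ((Kx τ r (p ++ (wf τ r true false).flatMap f ++ q) ∧
      Ky τ r (p ++ (wf τ r true false).flatMap f ++ q)) ↔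
    (Kx τ r (p ++ (wf τ r true true).flatMap f ++ q) ∧
      Ky τ r (p ++ (wf τ r true true).flatMap f ++ q)))

/-- FAA (medium).  `x^2zsz ≈ x^2zxsz` implies `FB`.
Proof.  With words.  `X` not first: `X ~ XX` (`gm`); `XX CC ~ CC XX` (`c`).  Claim for `j ≤ r`: in
`XX bs_j R_j` (`R_j` = rest from `L_j` on), the word `X X` may be inserted behind
`L_(j-1) C_(j-1) C_(j-1)`: `X X` is in front of `L_(j-1)` (beginning for `j = 1`, or inserted before),
`XX L s L ~ XX L X s L` (`A0`, the tail of `L_(j-1)` is in the rest, `Tau`), then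
`X C C ~ XX C C ~ C C XX`.  Insert from the left to the right: all `X X` are inserted. -/
def FaaStmt : Prop := ∀ β : FIC, Gz β → A0 β → ∀ (r : ℕ) (τ : List ℕ), Tau τ r → FB β τ r

/-- FAP (medium).  `xtzxsz ≈ xtxzxsz` implies `FB`.
Proof.  As FAA from the right: `X` behind `L_r` and `X` at the beginning: `X t L_r X s L_r ~
X t X L_r X s L_r`, so `X` (`~ XX`) may be inserted in front of `L_r`, i.e. behind
`C_(r-1) C_(r-1)`; `C C XX ~ XX C C ~ XX XX C C ~ XX C C XX`, so `X` stands behind `L_(r-1)` as well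
(temporarily), which gives `X X` in front of `L_(r-1)`, and so on; at the end remove the temporary
ones (`XX C C XX ~ C C XX`). -/
def FapStmt : Prop := ∀ β : FIC, Gz β → P0 β → ∀ (r : ℕ) (τ : List ℕ), Tau τ r → FB β τ r

/-- NOF (medium-strong, uses SRT).  **Literal form of a run.**
Proof.  `v = w.filter (· ∈ nr ν r)`; `nn v c q = nn w c q`, `v.count c = w.count c` for the names.
Cut `v` at the first `L 0, .., L r` (in this order: `C i` is between `L i` and `L (i+1)`) and at `b`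
(`MWK.mem_split`): `v = P0 ++ L 0 :: U 0 ++ L 1 :: U 1 .. ++ L r :: U r ++ b :: V`.  Letters in front of
`b`: `x`, `C i`, every `L i` once; `S i` is behind `b` (`oS`).  `P0`: no `C i` (`cl0`), so a power of
`x`, exponent `nn w x (L 0) ≥ 1`.  `U i` (`i < r`): `C j` with `j < i` is in front of `L i`
(`cl1`), `C j` with `j > i` is behind `L (i+1)` (`cl0`), so letters `x`, `C i`, and all `C i` are in
`U i`.  `U r`: only `x` (`cl1`), at least one (`xr`).  `V`: SRT with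
`M = τ.flatMap (fun i => [S i, L i])` as in row NOA (`WT`; `x`, `C i` do not occur behind `b`).  No
`x` between `L 0` and `L r` iff `nn w x (L 0) = nn w x (L r)`. -/
def NofStmt : Prop := ∀ (ν : Nm) (τ : List ℕ) (r : ℕ), Nr ν r → Tau τ r → ∀ w : List ℕ,
  WR ν r w → WT ν τ r w → ∃ (i j : ℕ) (U : ℕ → List ℕ) (f : ℕ → ℕ), 1 ≤ i ∧ 1 ≤ j ∧
    (∀ s < r, (∀ c ∈ U s, c = ν.x ∨ c = ν.C s) ∧ 2 ≤ (U s).count (ν.C s)) ∧ (∀ s ≤ r, 1 ≤ f s) ∧
    w.filter (fun c => decide (c ∈ nr ν r)) = List.replicate i ν.x ++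
      ((List.range r).flatMap (fun s => ν.L s :: U s) ++ ν.L r :: (List.replicate j ν.x ++ ν.b ::
        τ.flatMap (fun s => ν.S s :: List.replicate (f s) (ν.L s)))) ∧
    (nn w ν.x (ν.L 0) = nn w ν.x (ν.L r) ↔ ∀ s < r, ν.x ∉ U s)

/-- NOG (medium, uses MWF.POW).  Normalisation after doubling of `x`.
Proof.  The doubled word: `x^(2i) ~ x x` (POW).  `U s` doubled, in a context with an `x` in front:
every `x` is not first (`~ x x`, may be multiplied), the first `C = C s` is followed by another `C`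
in `U s`; `U = x^a C U'`: the letters of `U'` are not first, replace them by squares, the squares
commute (`c`), so `U' ~ C C` or `C C x x` (`C ∈ U'`), `C C C ~ C C`, and `x^a ~ x x` goes to the end if
`a ≥ 1`.  So `U s ~ C C` if `x ∉ U s`, `~ C C x x` if `x ∈ U s`.  `x^(2j) ~ x`, `(L s)^(f s) ~ L s`
(not first, `gm`).  Congruence over `range r` and over `τ` by induction. -/
def NogStmt : Prop := ∀ β : FIC, Gz β → ∀ (ν : Nm) (τ : List ℕ) (r : ℕ), (nr ν r).Nodup →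
  Tau τ r → ∀ (i j : ℕ) (U : ℕ → List ℕ) (f : ℕ → ℕ), 1 ≤ i → 1 ≤ j →
    (∀ s < r, (∀ c ∈ U s, c = ν.x ∨ c = ν.C s) ∧ 2 ≤ (U s).count (ν.C s)) → (∀ s ≤ r, 1 ≤ f s) →
      RR β ((List.replicate i ν.x ++ ((List.range r).flatMap (fun s => ν.L s :: U s) ++
          ν.L r :: (List.replicate j ν.x ++ ν.b ::
            τ.flatMap (fun s => ν.S s :: List.replicate (f s) (ν.L s))))).flatMap
              (fun c => if c = ν.x then [ν.x, ν.x] else [c]))
        (ws [ν.x] [ν.b] (sg ν.S) (sg ν.L) (sg ν.C) (fun s => decide (ν.x ∈ U s)) τ r)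

/-- DSR (easy-medium).  The names of a run are different.  Proof: as row DST: `b, S i` have count 1
and are different by `Nr`; `nn w x b = w.count x ≥ 2`, `nn w (L i) b = 1`; `x ≠ C i`:
`nn w x (L 0) ≥ 1`, `nn w (C i) (L 0) = 0`; `C i ≠ L j`: `nn w (C i) b ≥ 2`; `C i ≠ C j`, `i < j`:
`nn w (C i) (L j) ≥ 2`, `nn w (C j) (L j) = 0`; `L i ≠ L j`, `i < j`: `nn w (C i) (L i) = 0`,
`nn w (C i) (L j) ≥ 2`. -/
def DsrStmt : Prop := ∀ (ν : Nm) (τ : List ℕ) (r : ℕ), Nr ν r → Tau τ r → ∀ w : List ℕ,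
  WR ν r w → WT ν τ r w → (nr ν r).Nodup

/-- RNF (medium).  Renaming.  Proof: as row REN: `RR.sub f` with `f x = X`, `f b = B`, `f (S i) = S' i`,
`f (L i) = L' i` (`i ≤ r`), `f (C i) = C' i` (`i < r`); `(ws ..).flatMap f = ws ..` for every `s`. -/
def RnfStmt : Prop := ∀ β : FIC, ∀ (ν : Nm) (τ : List ℕ) (r : ℕ), Tau τ r → (nr ν r).Nodup →
  RR β (ws [ν.x] [ν.b] (sg ν.S) (sg ν.L) (sg ν.C) (fun _ => false) τ r)
    (ws [ν.x] [ν.b] (sg ν.S) (sg ν.L) (sg ν.C) (fun _ => true) τ r) → FB β τ r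

/-- TLF (easy-medium).  Restriction of the tails to a part of the indices.
Proof.  Induction on `τ`: `τ = i :: τ'`.  `p i`: `(τ.filter p) = i :: ..`, use the induction
assumption for `τ'` and `S' i := S i`; not `p i`: `S i ++ L i` is absorbed by the `S'` of the first
element of `τ'.filter p` (or by the rest if there is none).  (With `Function.update` for `S'`; the
elements of `τ` are different.) -/
def TlfStmt : Prop := ∀ (τ : List ℕ) (S L : ℕ → List ℕ) (p : ℕ → Bool), τ.Nodup →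
  ∃ (S' : ℕ → List ℕ) (R : List ℕ), τ.flatMap (fun i => S i ++ L i) =
    (τ.filter p).flatMap (fun i => S' i ++ L i) ++ R

/-- FSP (strong, uses TLF).  **One filled gap fills all.**
Proof.  Let `P n` : for all `τ` with `Tau τ n`, all `s` (if `n = r`: with `s i = true` for some
`i < n`), all words: `ws .. s τ n ~ ws .. (fun _ => true) τ n`.  Strong induction on `n ≤ r`.  If
`s i = false` for all `i < n`: `n < r`, use the assumption `FB β τ n` (`bs` depends only on `s i`,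
`i < n`).  Let `s i = true`, `i < n`.  The word is
`X X bs_i L_i C_i C_i X X bs'' L_n X B tails` where `bs''` is `bs` for the indices `i + 1 .. n - 1`.
Left run: `L_i C_iC_i XX ~ L_i XX C_iC_i` (`c`); `X X bs_i L_i X` followed by the rest, which contains
the tails of `L_0, .., L_i`: with TLF (`p j = decide (j ≤ i)`, `Tau (τ.filter p) i`) the word is
`ws X B' S' L C s (τ.filter p) i ++ R`, `B' = X C_i C_i .. B`: `P i` fills the gaps `< i` (`i < n`).
Right run: `X X L_(i+1) .. L_n X B tails` (`X` at the beginning is not first, but `X X` is there) is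
`ws` for the shifted names `L' j = L (j + i + 1)`, `C' j = C (j + i + 1)`, `s' j = s (j + i + 1)`, number
`n - 1 - i < n`, order `(τ.filter (· > i)).map (· - (i+1))` (TLF and `List.flatMap_map`): `P (n-1-i)`
fills the gaps `> i`. -/
def FspStmt : Prop := ∀ β : FIC, Gz β → ∀ r : ℕ, (∀ n < r, ∀ τ, Tau τ n → FB β τ n) →
  ∀ τ : List ℕ, Tau τ r → ∀ s : ℕ → Bool, (∃ i < r, s i = true) →
    ∀ (X B : List ℕ) (S L C : ℕ → List ℕ),
      RR β (ws X B S L C s τ r) (ws X B S L C (fun _ => true) τ r)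

/-- VEQ (medium, uses NOF, NOG, DSR, RNF, FSP).  **No `x` inside the run is kept by `β`.**
Proof.  Suppose `nn w x (L 0) = nn w x (L r)` but not so for `w'`.  `RR.filter (· ∈ nr ν r)` and
`RR.sub (x ↦ x x)`; NOF and NOG for `w` and `w'`: `ws .. (fun _ => false) ~ ws .. s` with
`s i = true` for some `i < r`.  FSP: `~ ws .. (fun _ => true)`.  RNF and DSR: `FB β τ r`. -/
def VeqStmt : Prop := ∀ β : FIC, Gz β → ∀ (ν : Nm) (τ : List ℕ) (r : ℕ), Nr ν r → Tau τ r →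
  (∀ n < r, ∀ τ, Tau τ n → FB β τ n) → ¬ FB β τ r → ∀ w w' : List ℕ, RR β w w' →
    WR ν r w → WT ν τ r w → WR ν r w' → WT ν τ r w' →
      nn w ν.x (ν.L 0) = nn w ν.x (ν.L r) → nn w' ν.x (ν.L 0) = nn w' ν.x (ν.L r)

/-- TWT (medium).  The order `tw`.
Proof.  `Tau`: members: `i + 1` for `1 ≤ i ≤ r - 1`, `0, 1` from `0`, `r + 1, r + 2` from `r`
(`1 ≤ r`); `Nodup`: `List.nodup_flatMap`.  `pre`: `τ = τ1 ++ j :: τ2`, `i ∈ τ1` (`MWK.mem_split`,
`MWK.pre_split`), so `tw τ r = tw τ1 r ++ (block of j) ++ ..`, `ix i`, `iy r i` are in the block of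
`i`, `ix j`, `iy r j` in the block of `j`. -/
def TwtStmt : Prop := ∀ (τ : List ℕ) (r : ℕ), 1 ≤ r → Tau τ r →
  Tau (tw τ r) (r + 2) ∧ ∀ i j, i ≤ r → j ≤ r → i ∈ pre τ j →
    ix i ∈ pre (tw τ r) (ix j) ∧ iy r i ∈ pre (tw τ r) (iy r j)

/-- RUN (easy-medium, uses TWT).  The two runs.
Proof.  `ix i ≤ r + 1`, `iy r i ≤ r + 2` for `i ≤ r`.  `WR`: fields of `KF` (`Nx`: `x0`, `xr`;
`C' i = C (i+1)`, `j ≤ i → ix j ≤ i + 1`, `i < j → i + 1 < ix j`; the same for `iy`; `Ny`: `y1`, `yr`,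
`iy r 0 = 1` since `1 ≤ r`).  `WT`: from `wt` and TWT.  `Nr`: the numbers `2`, `3 + 3 i`. -/
def RunStmt : Prop := ∀ (τ : List ℕ) (r : ℕ), 1 ≤ r → Tau τ r → ∀ w : List ℕ, KF τ r w →
  WR Nx r w ∧ WT Nx τ r w ∧ WR (Ny r) r w ∧ WT (Ny r) τ r w ∧ Nr Nx r ∧ Nr (Ny r) r

/-- VCF (medium, uses OLR, TLR, VEQ, RUN, FAA, FAP, MWF.CTT, MWF.SIM).  `β` keeps `Kx`, `Ky`.
Proof.  `¬ A0`, `¬ P0` by FAA, FAP (so `¬ E0`, since `E0` implies `A0`: append `[2, 1]`).  `KF`: counts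
by SIM, CTT; simple letters `2`, `S i`: OLR; `cl0`, `y0`: TLR (T0) with `s = 2`; `cl1`, `xt`: TLR (T);
`x0`: if `nn w' 0 (L 0) = 0` then TLR (T0) for `RR.symm` (the assumptions for `w'` are already
proved) gives `nn w 0 (L 0) = 0`; `y1` the same; `xr`, `yr`: TLR (T) for `RR.symm`.
Equalities: VEQ with `Nx`, `Ny r` and RUN for `w` and `w'` (`Nx.L 0 = L 0`, `Nx.L r = L (r+1)`,
`(Ny r).L 0 = L 1`, `(Ny r).L r = L (r+2)`). -/
def VcfStmt : Prop := ∀ β : FIC, Gz β → ∀ (τ : List ℕ) (r : ℕ), 1 ≤ r → Tau τ r →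
  (∀ n < r, ∀ τ, Tau τ n → FB β τ n) → ¬ FB β τ r → ∀ w w' : List ℕ, RR β w w' →
    (Kx τ r w → Kx τ r w') ∧ (Ky τ r w → Ky τ r w')

/-- SAF (medium, uses PRF, TWT).  The word `wf τ r false false` satisfies `Kx` and `Ky`, and
`wf τ r false true` does not satisfy `Kx`.
Proof.  Direct computation.  `pre w (L 0) = [0,0]`, `pre w (L (i+1)) = [0,0,L 0,1,1] ++ (i blocks)`
for `i ≤ r`, `pre w (L (r+2)) = .. ++ [L (r+1), 0, 0]`, `pre w 2 =` the part in front of `2`,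
`pre w (S i) = .. ++ 2 :: (pre (tw τ r) i).flatMap ..` (PRF).  Second claim: `nn w 0 (L 0) = 2`,
`nn w 0 (L (r+1)) = 2 + 2 r`. -/
def SafStmt : Prop := ∀ (τ : List ℕ) (r : ℕ), 1 ≤ r → Tau τ r →
  Kx τ r (wf τ r false false) ∧ Ky τ r (wf τ r false false) ∧ ¬ Kx τ r (wf τ r false true)

/-- PEF (medium, uses VCF, CLF, SAF).  **The crossing hull pentagon: hulls are filled.**
Proof.  Strong induction on `r`; `r = 0`: both words are equal.  `r ≥ 1`: suppose `¬ FB β τ r`.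
`σ = gaml (Kx τ r)`, `τ' = gaml (Ky τ r)`, `K w := Kx w ∧ Ky w`, `ρ = FIC.inf (gaml K) τ'`.
`β ≤ σ, τ', gaml K` (VCF).  `w1 = wf false false`, `w2 = wf true false`, `w3 = wf true true`,
`w4 = wf false true`: `(w1, w2)`, `(w4, w3)` in `σ`, `(w1, w4)`, `(w2, w3)` in `τ'`, `(w2, w3)` in
`gaml K` (CLF).  `w1 ~σ w2 ~ρ w3 ~σ w4`, `(w1, w4)` in `τ'`; `pent`: `K w4`, contradiction to SAF. -/
def PefStmt : Prop := ∀ β : FIC, ModF β → Gz β → ∀ (r : ℕ) (τ : List ℕ), Tau τ r → FB β τ r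

end Pool.Agent.MWGN
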