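import Pool.Agent.MWGN.StmtsC
import Pool.Agent.MWZ.Defs

/-!
# MWGN, part D: the fill identity for all words
-/

namespace Pool.Agent.MWGN

open Pool.Agent.Helper14_MV Pool.Agent.Helper2_MV
open Pool.Agent.MWK (pre Gw)
open Pool.Agent.MWF (Ap gaml)

/-- the fill identity for all words: `p cc w w' c q ≈ p cc w c w' c q` -/
def FFW (β : FIC) : Prop := ∀ (p w w' q : List ℕ) (c : ℕ),
  (∀ a ∈ w ++ w', 2 ≤ (p ++ c :: c :: (w ++ (w' ++ c :: q))).count a) →
    RR β (p ++ c :: c :: (w ++ (w' ++ c :: q))) (p ++ c :: c :: (w ++ c :: (w' ++ c :: q)))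

/-- FFR (strong, uses FSP; tools `norm`, `tail`, `mv`, `dup`, `dbl_idem`, `form` of
Helper36_MWGN/CMW.lean).  **FB and I1 imply the fill identity for all words.**
Proof.  Let `e` be a letter which does not occur in `p, c, w, w', q`.  Apply `norm` with `y = c`,
`A₀ = p ++ [c, c]`, to the word `w ++ [e, e] ++ w'` (all its letters occur at least twice):
`A ++ (w e e w' ++ c :: q) ~ A ++ (dbl u₀ ++ (nf z u n ++ c :: q))`, `z i ∈ q` (so `z i ≠ e`),
`z i ∉ A₀` (so `z i ≠ c`), `A = p ++ [c, c]`.  Substitute `e ↦ []` : `A w w' c q ~ A (dbl u₀') (nf z u' n) c q`,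
`u' i = (u i).filter (· ≠ e)`.  Substitute `e ↦ [c]`: `A w c c w' c q ~ A (dbl u₀'') (nf z u'' n) c q`,
`u'' i` is `u i` with `c` in place of `e`; and `A w c c w' .. ~ A w c w' ..` (`dup`, `c ∈ A`).  `e` occurs on
the right side too (content: MWF.CTT), so `e ∈ u₀` or `e ∈ u i` for an `i < n`.  Let
`d x = dbl x ~ dbl x ++ dbl x`.  (1) Without `e`: `A = p c c`, `c c (dbl u₀') ~ (dbl u₀') c c`, so the word
is `p (dbl u₀') [c c (nf z u' n) c q]`, and with `n = m + 1`: `c c nf c q ~ c c z_0 D_0D_0 .. z_m c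
(dbl (u' m)) q` (`mv` backwards), `D_i = dbl (u' i)`: this is
`ws [c] [] S' (z i) D (fun _ => false) τ m ++ rest` with `tail` for `(dbl (u' m)) ++ q`; FB: `~` the filled
word.  (2) With `c` in place of `e`: `dbl (u'' i) ~ dbl (u' i) ++ (if e ∈ u i then [c, c] else [])` (squares
commute, POW), so the word is `ws .. s ..` with `s i = decide (e ∈ u i)`, `i < m`; if some `s i` is true:
FSP: `~` the filled word; otherwise `e` occurs only in `u₀` or in `u m`: there the `c` is absorbed by
`c c` resp. by the last `c`, and FB fills.  `n = 0`: everything is `p c c (dbl u₀) c q`.  Both words are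
equivalent to the same filled word. -/
def FfrStmt : Prop := ∀ β : FIC, Gz β → MWZ.I1 1 (RR β) →
  (∀ (r : ℕ) (τ : List ℕ), Tau τ r → FB β τ r) → FFW β

end Pool.Agent.MWGN
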