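import Pool.Agent.MWK.Defs

/-!
# MWGN: the covering lemma (MP_23468a_al)
-/

namespace Pool.Agent.MWGN

open Pool.Agent.Helper14_MV Pool.Agent.Helper2_MV
open Pool.Agent.MWK (pre)

/-- the word `g 0, h 0, g 1, h 1, …` -/
def gh (g h : ℕ → List ℕ) (N : ℕ) : List ℕ := (List.range N).flatMap (fun i => g i ++ h i)

theorem gh_succ (g h : ℕ → List ℕ) (N : ℕ) : gh g h (N + 1) = gh g h N ++ (g N ++ h N) := by
  simp [gh, List.range_succ]

theorem mem_gh {g h : ℕ → List ℕ} {N c : ℕ} : c ∈ gh g h N ↔ ∃ i < N, c ∈ g i ∨ c ∈ h i := by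
  simp [gh, List.mem_flatMap]

/-- `N` pins with at most one light each carry at most `N` lights -/
theorem pig {g h : ℕ → List ℕ} {L : ℕ → ℕ} {N K : ℕ} (hm : ∀ j < K, L j ∈ gh g h N)
    (hh : ∀ i < N, ∀ j < K, L j ∉ h i)
    (hg : ∀ i < N, ∀ j j', j < j' → j' < K → ¬ (L j ∈ g i ∧ L j' ∈ g i)) : K ≤ N := by
  classical
  have h1 : ∀ j, ∃ i, j < K → i < N ∧ L j ∈ g i := by
    intro j
    by_cases hj : j < K
    · obtain ⟨i, hi, h2⟩ := mem_gh.1 (hm j hj)
      refine ⟨i, fun _ => ⟨hi, ?_⟩⟩
      rcases h2 with h2 | h2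
      · exact h2
      · exact absurd h2 (hh i hi j hj)
    · exact ⟨0, fun h => absurd h hj⟩
  choose F hF using h1
  have h2 : Finset.card (Finset.range K) ≤ Finset.card (Finset.range N) := by
    apply Finset.card_le_card_of_injOn F
    · intro j hj
      simp only [Finset.coe_range, Set.mem_Iio] at hj ⊢
      exact (hF j hj).1
    · intro j hj j' hj' e
      simp only [Finset.coe_range, Set.mem_Iio] at hj hj'
      by_contra hne
      rcases Nat.lt_or_gt_of_ne hne with h3 | h3
      · exact hg (F j) (hF j hj).1 j j' h3 hj' ⟨(hF j hj).2, by rw [e]; exact (hF j' hj').2⟩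
      · exact hg (F j) (hF j hj).1 j' j h3 hj ⟨by rw [e]; exact (hF j' hj').2, (hF j hj).2⟩
  simpa using h2

/-- **COV**: `N` pins `g i` with at most one light each, contents `h i` without lights; then the
pin number `i` carries the light number `i` -/
theorem cov {g h : ℕ → List ℕ} {L : ℕ → ℕ} : ∀ {N : ℕ}, (∀ i < N, (gh g h N).count (L i) = 1) →
    (∀ i j, i < j → j < N → L i ∈ pre (gh g h N) (L j)) →
    (∀ i < N, ∀ j < N, L j ∉ h i) →
    (∀ i < N, ∀ j j', j < j' → j' < N → ¬ (L j ∈ g i ∧ L j' ∈ g i)) → ∀ i < N, L i ∈ g i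
  | 0, _, _, _, _, i, hi => by omega
  | N + 1, h1, ho, hh, hg, i, hi => by
    have hm : ∀ j < N + 1, L j ∈ gh g h (N + 1) := fun j hj =>
      List.count_pos_iff.1 (by rw [h1 j hj]; exact Nat.one_pos)
    -- some light is not in the first part
    have h2 : ∃ j, j < N + 1 ∧ L j ∉ gh g h N := by
      by_contra hc
      push Not at hc
      have := pig (N := N) (K := N + 1) hc (fun i hi j hj => hh i (by omega) j hj)
        (fun i hi j j' h3 h4 => hg i (by omega) j j' h3 h4)
      omega
    have hlast : ∀ j < N + 1, L j ∉ gh g h N → L j ∈ g N := by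
      intro j hj hn
      have h3 := hm j hj
      rw [gh_succ, List.mem_append, List.mem_append] at h3
      rcases h3 with h3 | h3 | h3
      · exact absurd h3 hn
      · exact h3
      · exact absurd h3 (hh N (by omega) j hj)
    have h3 : ∀ j < N + 1, L j ∉ gh g h N → j = N := by
      intro j hj hn
      by_contra hne
      have hjN : j < N := by omega
      have h4 := ho j N hjN (by omega)
      have h5 : L N ∉ gh g h N := by
        intro h5
        rw [gh_succ, MWK.pre_append_mem h5] at h4
        exact hn (MWK.mem_of_mem_pre h4)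
      exact hg N (by omega) j N hjN (by omega) ⟨hlast j hj hn, hlast N (by omega) h5⟩
    obtain ⟨j0, hj0, hn0⟩ := h2
    have hj0' : j0 = N := h3 j0 hj0 hn0
    subst hj0'
    have hin : ∀ j < j0, L j ∈ gh g h j0 := by
      intro j hj
      by_contra hn
      have := h3 j (by omega) hn
      omega
    rcases Nat.lt_or_ge i j0 with hi' | hi'
    · refine cov (N := j0) ?_ ?_ (fun i hi j hj => hh i (by omega) j (by omega))
        (fun i hi j j' h4 h5 => hg i (by omega) j j' h4 (by omega)) i hi'
      · intro j hj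
        have h4 := h1 j (by omega)
        rw [gh_succ, List.count_append] at h4
        have h5 : 0 < (gh g h j0).count (L j) := List.count_pos_iff.2 (hin j hj)
        omega
      · intro a b hab hb
        have h4 := ho a b hab (by omega)
        rw [gh_succ, MWK.pre_append_mem (hin b hb)] at h4
        exact h4
    · have e : i = j0 := by omega
      subst e
      exact hlast i hi hn0

end Pool.Agent.MWGN
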