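import Pool.Agent.MWF.Stmts
import Pool.Agent.MWK.StmtsN
import Pool.Agent.MWGN.Cov

/-!
# MWGN: necessity in the gamma world outside `x^2y ≈ x^2yx` (definitions)

MP_23468a_al, aperiodic case.  `nn w c q` is the number of `c` in front of the first `q`.
-/

namespace Pool.Agent.MWGN

open Pool.Agent.Helper14_MV Pool.Agent.Helper2_MV
open Pool.Agent.MWK (pre Gw)

/-- the number of letters `c` in front of the first `q` -/
def nn (w : List ℕ) (c q : ℕ) : ℕ := (pre w q).count c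

/-- the world: `xyx ≈ xyx^2`, not `xyx ≈ x^2yx^2`, `x^2y^2 ≈ y^2x^2`, `xytxy ≈ yxtxy` -/
structure Gz (β : FIC) : Prop where
  gw : Gw β
  c : RR β [0, 0, 1, 1] [1, 1, 0, 0]
  k : RR β [0, 1, 2, 0, 1] [1, 0, 2, 0, 1]

/-- `x^2y ≈ x^2yx` -/
def E0 (β : FIC) : Prop := RR β [0, 0, 1] [0, 0, 1, 0]
/-- `x^2zsz ≈ x^2zxsz` (`x = 0`, `z = 1`, `s = 2`) -/
def A0 (β : FIC) : Prop := RR β [0, 0, 1, 2, 1] [0, 0, 1, 0, 2, 1]
/-- `xtzxsz ≈ xtxzxsz` (`x = 0`, `z = 1`, `t = 2`, `s = 3`) -/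
def P0 (β : FIC) : Prop := RR β [0, 2, 1, 0, 3, 1] [0, 2, 0, 1, 0, 3, 1]

/-- names of letters: `x y`, simple letters `a`, `b`, `S i`, lights `L i`, contents `C i` -/
structure Nm where
  x : ℕ
  y : ℕ
  a : ℕ
  b : ℕ
  S : ℕ → ℕ
  L : ℕ → ℕ
  C : ℕ → ℕ

/-- `L 0, C 0, C 0, …, L (m-1), C (m-1), C (m-1)` -/
def bd (L C : ℕ → List ℕ) (m : ℕ) : List ℕ := (List.range m).flatMap (fun i => L i ++ (C i ++ C i))

/-- the common rest of the two words of the identity `kappa` -/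
def kr (X Y A B : List ℕ) (S L C : ℕ → List ℕ) (τ : List ℕ) (m : ℕ) : List ℕ :=
  A ++ (X ++ (bd L C m ++ (L m ++ (Y ++ (B ++ τ.flatMap (fun i => S i ++ L i))))))

/-- **kappa**: `XY A X L_0 C_0^2 L_1 .. C_{m-1}^2 L_m Y B (S_i L_i)_{i ∈ τ} ≈ YX A X ..` -/
def Kap (β : FIC) (τ : List ℕ) (m : ℕ) : Prop :=
  ∀ (X Y A B : List ℕ) (S L C : ℕ → List ℕ),
    RR β (X ++ (Y ++ kr X Y A B S L C τ m)) (Y ++ (X ++ kr X Y A B S L C τ m))

/-- `τ` is an order of the indices `0, …, m` -/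
def Tau (τ : List ℕ) (m : ℕ) : Prop := τ.Nodup ∧ ∀ i, i ∈ τ ↔ i ≤ m

/-- core conditions: `x`, `y` once before `a` and again between `a` and `b`; lights `L 0 .. L (m+1)`
once between `a` and `b` and again behind `b`; contents `C i` (`i < nc`) only between `a` and `b`;
order between `a` and `b`: `x, L 0, C 0, L 1, C 1, .., L (m+1), y` -/
structure WC (ν : Nm) (m nc : ℕ) (w : List ℕ) : Prop where
  sa : w.count ν.a = 1
  sb : w.count ν.b = 1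
  ob : nn w ν.b ν.a = 0
  x2 : 2 ≤ w.count ν.x
  y2 : 2 ≤ w.count ν.y
  xa : nn w ν.x ν.a = 1
  ya : nn w ν.y ν.a = 1
  xb : nn w ν.x ν.b = w.count ν.x
  yb : nn w ν.y ν.b = w.count ν.y
  l2 : ∀ i ≤ m + 1, 2 ≤ w.count (ν.L i)
  l0 : ∀ i ≤ m + 1, nn w (ν.L i) ν.a = 0
  lb : ∀ i ≤ m + 1, nn w (ν.L i) ν.b = 1
  c2 : ∀ i < nc, 2 ≤ w.count (ν.C i)
  c0 : ∀ i < nc, nn w (ν.C i) ν.a = 0
  cb : ∀ i < nc, nn w (ν.C i) ν.b = w.count (ν.C i)
  xl : ∀ i ≤ m + 1, nn w ν.x (ν.L i) = w.count ν.x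
  yl : ∀ i ≤ m + 1, nn w ν.y (ν.L i) = 1
  cl0 : ∀ i < nc, ∀ j ≤ i, nn w (ν.C i) (ν.L j) = 0
  cl1 : ∀ i < nc, ∀ j, i < j → j ≤ m + 1 → nn w (ν.C i) (ν.L j) = w.count (ν.C i)

/-- tails: behind `b` come the simple letters `S i` in the order `τ`, the other occurrences of
`L i` are between `S i` and the next one -/
structure WT (ν : Nm) (τ : List ℕ) (m : ℕ) (w : List ℕ) : Prop where
  ss : ∀ i ≤ m, w.count (ν.S i) = 1
  oS : ∀ i ≤ m, nn w (ν.S i) ν.b = 0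
  os : ∀ i j, i ≤ m → j ≤ m → i ∈ pre τ j → nn w (ν.S j) (ν.S i) = 0
  lt : ∀ i ≤ m, nn w (ν.L i) (ν.S i) = 1
  lT : ∀ i j, i ≤ m → j ≤ m → i ∈ pre τ j → nn w (ν.L i) (ν.S j) = w.count (ν.L i)

/-- the names of the simple letters are different -/
def Ns (ν : Nm) (m : ℕ) : Prop := (ν.a :: ν.b :: (List.range (m + 1)).map ν.S).Nodup

/-- the list of the names -/
def nl (ν : Nm) (m : ℕ) : List ℕ := ν.x :: ν.y :: ν.a :: ν.b ::
  ((List.range (m + 1)).map ν.S ++ ((List.range (m + 1)).map ν.L ++ (List.range m).map ν.C))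

/-- one letter words -/
def sg (f : ℕ → ℕ) : ℕ → List ℕ := fun i => [f i]

/-- the rest `kr` with letters -/
def krl (ν : Nm) (τ : List ℕ) (m : ℕ) : List ℕ :=
  kr [ν.x] [ν.y] [ν.a] [ν.b] (sg ν.S) (sg ν.L) (sg ν.C) τ m

/-! ### the letters and words of the doubling pentagon -/

/-- level 1: `x = 0`, `y = 1`, `a = 2`, `b = 3` -/
def N1 : Nm := ⟨0, 1, 2, 3, fun i => 5 + 6 * i, fun i => 6 + 6 * i, fun i => 7 + 6 * i⟩

/-- level 2: `x = L m`, `y = L (m+1)`, `a = S m` (letters of level 1), `b = 4` -/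
def N2 (m : ℕ) : Nm := ⟨N1.L m, N1.L (m + 1), N1.S m, 4, fun i => 8 + 6 * i, fun i => 9 + 6 * i,
  fun i => 10 + 6 * i⟩

/-- the conditions without the two special orders -/
structure K0 (τ : List ℕ) (m : ℕ) (w : List ℕ) : Prop where
  c1 : WC N1 m m w
  t1 : WT N1 τ m w
  c2 : WC (N2 m) m (m + 1) w
  t2 : WT (N2 m) τ m w

/-- `0` before `1` in front of `2` -/
def Kb (τ : List ℕ) (m : ℕ) (w : List ℕ) : Prop := K0 τ m w ∧ nn w 0 1 = 1

/-- `L m` before `L (m+1)` -/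
def Kc (τ : List ℕ) (m : ℕ) (w : List ℕ) : Prop := K0 τ m w ∧ nn w (N1.L m) (N1.L (m + 1)) = 1

/-- the block behind the simple letter `S i` of level 1 -/
def T1 (m i : ℕ) : List ℕ :=
  if i = m then N1.L m :: (bd (sg (N2 m).L) (sg (N2 m).C) (m + 1) ++
    [(N2 m).L (m + 1), N1.L (m + 1)]) else [N1.L i]

/-- the block behind the simple letter `S i` of level 2 -/
def T2 (m i : ℕ) : List ℕ :=
  if i = m then [(N2 m).L m, (N2 m).L (m + 1)] else [(N2 m).L i]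

/-- the rest of the words -/
def ww (τ : List ℕ) (m : ℕ) (o : Bool) : List ℕ :=
  2 :: 0 :: (bd (sg N1.L) (sg N1.C) m ++ ((if o then [N1.L m, N1.L (m + 1)] else
    [N1.L (m + 1), N1.L m]) ++ 1 :: 3 :: (τ.flatMap (fun i => N1.S i :: T1 m i) ++
      4 :: τ.flatMap (fun i => (N2 m).S i :: T2 m i))))

/-- the four words: order of `0, 1` and order of `L m`, `L (m+1)` -/
def w0 (τ : List ℕ) (m : ℕ) (o o' : Bool) : List ℕ :=
  (if o then [0, 1] else [1, 0]) ++ ww τ m o'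

end Pool.Agent.MWGN
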