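import Pool.Agent.MWGN.Defs

/-!
# MWGN, part C: the crossing hull pentagon (definitions)
-/

namespace Pool.Agent.MWGN

open Pool.Agent.Helper14_MV Pool.Agent.Helper2_MV
open Pool.Agent.MWK (pre Gw)

/-- `L_0 C_0 C_0 [X X] L_1 C_1 C_1 [X X] ..`, the word `X X` is present behind `C_i` if `s i` -/
def bs (L C : ℕ → List ℕ) (X : List ℕ) (s : ℕ → Bool) (r : ℕ) : List ℕ :=
  (List.range r).flatMap (fun i => L i ++ (C i ++ (C i ++ (if s i then X ++ X else []))))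

/-- `X X L_0 C_0^2 [X^2] .. C_{r-1}^2 [X^2] L_r X B (S_i L_i)_{i ∈ τ}` -/
def ws (X B : List ℕ) (S L C : ℕ → List ℕ) (s : ℕ → Bool) (τ : List ℕ) (r : ℕ) : List ℕ :=
  X ++ (X ++ (bs L C X s r ++ (L r ++ (X ++ (B ++ τ.flatMap (fun i => S i ++ L i))))))

/-- **FB**: the hull of a heavy letter is filled -/
def FB (β : FIC) (τ : List ℕ) (r : ℕ) : Prop :=
  ∀ (X B : List ℕ) (S L C : ℕ → List ℕ),
    RR β (ws X B S L C (fun _ => false) τ r) (ws X B S L C (fun _ => true) τ r)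

/-- insertion of `k` words `E` -/
inductive Ins (E : List ℕ) : List ℕ → List ℕ → ℕ → Prop
  | nil : Ins E [] [] 0
  | cons (c : ℕ) {M N : List ℕ} {k : ℕ} : Ins E M N k → Ins E (c :: M) (c :: N) k
  | ins {M N : List ℕ} {k : ℕ} : Ins E M N k → Ins E M (E ++ N) (k + 1)

/-- a run: `x` in front of `L 0` and behind `L r`, lights `L 0 .. L r` once in front of `b`,
contents `C i` between `L i` and `L (i+1)` -/
structure WR (ν : Nm) (r : ℕ) (w : List ℕ) : Prop where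
  sb : w.count ν.b = 1
  x2 : 2 ≤ w.count ν.x
  xb : nn w ν.x ν.b = w.count ν.x
  x0 : 1 ≤ nn w ν.x (ν.L 0)
  xr : nn w ν.x (ν.L r) < w.count ν.x
  l2 : ∀ i ≤ r, 2 ≤ w.count (ν.L i)
  lb : ∀ i ≤ r, nn w (ν.L i) ν.b = 1
  c2 : ∀ i < r, 2 ≤ w.count (ν.C i)
  cb : ∀ i < r, nn w (ν.C i) ν.b = w.count (ν.C i)
  cl0 : ∀ i < r, ∀ j ≤ i, nn w (ν.C i) (ν.L j) = 0
  cl1 : ∀ i < r, ∀ j, i < j → j ≤ r → nn w (ν.C i) (ν.L j) = w.count (ν.C i)

/-- the simple letters `b`, `S 0 .. S r` are different -/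
def Nr (ν : Nm) (r : ℕ) : Prop := (ν.b :: (List.range (r + 1)).map ν.S).Nodup

/-- the list of the names of a run -/
def nr (ν : Nm) (r : ℕ) : List ℕ := ν.x :: ν.b ::
  ((List.range (r + 1)).map ν.S ++ ((List.range (r + 1)).map ν.L ++ (List.range r).map ν.C))

/-! ### the words of the pentagon: `x = 0`, `y = 1`, `b = 2` -/

/-- the names; lights `L 0 .. L (r+2)`, contents `C 1 .. C r` -/
def NF : Nm := ⟨0, 1, 2, 2, fun i => 3 + 3 * i, fun i => 4 + 3 * i, fun i => 5 + 3 * i⟩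

/-- order of the tails: `0` is a twin of `1`, `r + 2` is a twin of `r + 1` -/
def tw (τ : List ℕ) (r : ℕ) : List ℕ :=
  τ.flatMap (fun i => if i = 0 then [0, 1] else if i = r then [r + 1, r + 2] else [i + 1])

/-- gap `i + 1`: `C C [y y] [x x]` with `C = C (i+1)` -/
def gp (u v : Bool) (i : ℕ) : List ℕ :=
  [NF.C (i + 1), NF.C (i + 1)] ++ ((if u then [1, 1] else []) ++ (if v then [0, 0] else []))

/-- `xx L_0 yy L_1 gp_0 L_2 gp_1 .. L_r gp_{r-1} L_{r+1} xx L_{r+2} yy b (S_i L_i)` -/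
def wf (τ : List ℕ) (r : ℕ) (u v : Bool) : List ℕ :=
  0 :: 0 :: NF.L 0 :: 1 :: 1 :: ((List.range r).flatMap (fun i => NF.L (i + 1) :: gp u v i) ++
    NF.L (r + 1) :: 0 :: 0 :: NF.L (r + 2) :: 1 :: 1 :: 2 ::
      (tw τ r).flatMap (fun i => [NF.S i, NF.L i]))

/-- the conditions without the two special ones -/
structure KF (τ : List ℕ) (r : ℕ) (w : List ℕ) : Prop where
  sb : w.count 2 = 1
  x2 : 2 ≤ w.count 0
  y2 : 2 ≤ w.count 1
  xb : nn w 0 2 = w.count 0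
  yb : nn w 1 2 = w.count 1
  l2 : ∀ i ≤ r + 2, 2 ≤ w.count (NF.L i)
  lb : ∀ i ≤ r + 2, nn w (NF.L i) 2 = 1
  c2 : ∀ i, 1 ≤ i → i ≤ r → 2 ≤ w.count (NF.C i)
  cb : ∀ i, 1 ≤ i → i ≤ r → nn w (NF.C i) 2 = w.count (NF.C i)
  x0 : 1 ≤ nn w 0 (NF.L 0)
  xr : nn w 0 (NF.L (r + 1)) < w.count 0
  xt : nn w 0 (NF.L (r + 2)) = w.count 0
  y0 : nn w 1 (NF.L 0) = 0
  y1 : 1 ≤ nn w 1 (NF.L 1)
  yr : nn w 1 (NF.L (r + 2)) < w.count 1
  cl0 : ∀ i, 1 ≤ i → i ≤ r → ∀ j ≤ i, nn w (NF.C i) (NF.L j) = 0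
  cl1 : ∀ i, 1 ≤ i → i ≤ r → ∀ j, i < j → j ≤ r + 2 → nn w (NF.C i) (NF.L j) = w.count (NF.C i)
  wt : WT NF (tw τ r) (r + 2) w

/-- no `x` between the lights `L 0` and `L (r+1)` -/
def Kx (τ : List ℕ) (r : ℕ) (w : List ℕ) : Prop :=
  KF τ r w ∧ nn w 0 (NF.L 0) = nn w 0 (NF.L (r + 1))

/-- no `y` between the lights `L 1` and `L (r+2)` -/
def Ky (τ : List ℕ) (r : ℕ) (w : List ℕ) : Prop :=
  KF τ r w ∧ nn w 1 (NF.L 1) = nn w 1 (NF.L (r + 2))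

/-- index maps of the two runs -/
def ix (i : ℕ) : ℕ := if i = 0 then 0 else i + 1
/-- index maps of the two runs -/
def iy (r i : ℕ) : ℕ := if i = r then r + 2 else i + 1

/-- the run `L 0, L 2, .., L (r+1)` of `x` -/
def Nx : Nm := ⟨0, 1, 2, 2, fun i => NF.S (ix i), fun i => NF.L (ix i), fun i => NF.C (i + 1)⟩
/-- the run `L 1, .., L r, L (r+2)` of `y` -/
def Ny (r : ℕ) : Nm := ⟨1, 0, 2, 2, fun i => NF.S (iy r i), fun i => NF.L (iy r i),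
  fun i => NF.C (i + 1)⟩

end Pool.Agent.MWGN
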