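import Pool.Agent.MWGN.StmtsA

/-!
# MWGN, part B: the doubling pentagon (rows)

MP_23468a_al.  Steps: `w = p X Y F X G Y H` and the exchange `p Y X F X G Y H`; letters of `G` occur
at least twice, so `X`, `Y`, `G` contain no simple letter.
-/

namespace Pool.Agent.MWGN

open Pool.Agent.Helper14_MV Pool.Agent.Helper2_MV
open Pool.Agent.MWK (pre Gw)
open Pool.Agent.MWF (Ap gaml)

/-- GLX (medium).  **Exchange lemma**: the number of `c` in front of a light `q` does not change, if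
there is a simple letter `s` with exactly one `q` and all `c` in front of it.  `U, V` is `X, Y` or
`Y, X`.
Proof.  `s ∉ X, Y, G` (they occur twice, or their letters do; `s` occurs once).  If `q ∈ p`: both
`pre` are `pre p q`.  If `q ∉ p`, `q ∉ X`, `q ∉ Y`: both are `p ++ (U V resp. V U) ++ pre R q`
(`MWK.pre_append`), `R = F ++ ..`.  If `q ∉ p` and `q` in `X` or in `Y`: the first `q` is in
`p ++ U ++ V` and `s` is behind it (`nn w q s = 1`, so `q ∈ pre w s`), `s ∉ p` (otherwise `q ∈ p`), so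
`s ∈ R`, `pre w s = p ++ U ++ V ++ pre R s`, and `q` is not in `pre R s`, so `s ∈ F` (otherwise
`s ∈ H` and `pre R s` contains `F ++ X ++ G ++ Y ∋ q`).  All `c` are in front of `s`:
`w = pre w s ++ s :: rest`, `c ∉ rest`, and `rest` contains `X`, `G`, `Y`: `c ∉ X`, `c ∉ Y`.  So
`U.count c = V.count c = 0` and in both words `nn = p.count c` (the `c` in front of the first `q` are
in `p`). -/
def GlxStmt : Prop := ∀ (p X Y F G H U V : List ℕ), ((U = X ∧ V = Y) ∨ (U = Y ∧ V = X)) →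
  ∀ w w' : List ℕ, w = p ++ (U ++ (V ++ (F ++ (X ++ (G ++ (Y ++ H)))))) →
    w' = p ++ (V ++ (U ++ (F ++ (X ++ (G ++ (Y ++ H)))))) → (∀ c ∈ G, 2 ≤ w.count c) →
      ∀ c q s : ℕ, w.count s = 1 → q ≠ s → c ≠ s → nn w q s = 1 → nn w c s = w.count c →
        nn w' c q = nn w c q

/-- GLS (easy-medium).  Simple letters: `nn w c s` does not change.
Proof.  `s ∉ X, Y` since `w.count s = 1`.  If `s ∈ p`: both `pre` are `pre p s`; otherwise both are
`p ++ (U V resp. V U) ++ pre R s`, and the counts are equal. -/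
def GlsStmt : Prop := ∀ (p X Y F G H U V : List ℕ), ((U = X ∧ V = Y) ∨ (U = Y ∧ V = X)) →
  ∀ w w' : List ℕ, w = p ++ (U ++ (V ++ (F ++ (X ++ (G ++ (Y ++ H)))))) →
    w' = p ++ (V ++ (U ++ (F ++ (X ++ (G ++ (Y ++ H)))))) →
      ∀ c s : ℕ, w.count s = 1 → nn w' c s = nn w c s

/-- WCX (easy-medium, uses GLX, GLS).  The conditions are kept by the exchange.
Proof.  `w.count c = w'.count c`.  Fields with `a`, `b`, `S i`: GLS.  `xl`, `yl`, `cl0`, `cl1`: GLX
with `q = L i`, `s = b` (`lb`, `xb`, `yb`, `cb`; `q ≠ b`, `c ≠ b` by the counts). -/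
def WcxStmt : Prop := ∀ (ν : Nm) (τ : List ℕ) (m nc : ℕ), nc ≤ m + 1 →
  ∀ (p X Y F G H U V : List ℕ), ((U = X ∧ V = Y) ∨ (U = Y ∧ V = X)) →
    ∀ w w' : List ℕ, w = p ++ (U ++ (V ++ (F ++ (X ++ (G ++ (Y ++ H)))))) →
      w' = p ++ (V ++ (U ++ (F ++ (X ++ (G ++ (Y ++ H)))))) → (∀ c ∈ G, 2 ≤ w.count c) →
        (WC ν m nc w → WC ν m nc w') ∧ (WT ν τ m w → WT ν τ m w')

/-- SPX (medium).  **The special order under the exchange.**  Notation `x, y, a` of `ν`,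
`R = F X G Y H`.
Proof.  `a ∉ X, Y, G`.  `y ∈ p`, or `y ∉ X` and `y ∉ Y`: as in GLX nothing changes.  Otherwise the first
`y` is in the first two factors, `a` is behind it (`ya`), so `a ∈ R`, the numbers of `x` and of
`y` in `p ++ X ++ Y ++ pre R a` are 1 (`xa`, `ya`), so `y` is in exactly one of `X`, `Y`, and
`nn w x y = 1` means that this only `x` in front of `a` is in front of the first `y`.
(1) `w = p X Y R`.  `y ∈ Y`: then `x ∉ X` by assumption, `nn w x y = p.count x + (pre Y y).count x`,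
the same in `w'`.  `y ∈ X`: `nn w x y = p.count x + (pre X y).count x = 1`, so `Y.count x = 0`
(exactly one `x` in `p ++ X ++ Y`), `nn w' x y` is the same.
(2) `w = p Y X R`.  `y ∈ Y`: `p.count x + (pre Y y).count x = 1`, so `X.count x = 0`, the same in
`w' = p X Y R`.  `y ∈ X`: `nn w x y = p.count x + Y.count x + (pre X y).count x`,
`nn w' x y = p.count x + (pre X y).count x`.  Suppose `x ∈ Y`.  Let `μ = L 0`.  In `R = F X G Y H` there
is `y ∈ X`, then `x ∈ Y`.  `nn w x μ = w.count x` (`xl`): all `x` are in front of the first `μ`, so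
`p Y X F X G` (and a part of `Y`) is in front of the first `μ`, but it contains `y` twice: `nn w y μ ≥
2`, contradiction to `yl`.  So `Y.count x = 0`. -/
def SpxStmt : Prop := ∀ (ν : Nm) (m nc : ℕ) (p X Y F G H w w' : List ℕ),
  w = p ++ (X ++ (Y ++ (F ++ (X ++ (G ++ (Y ++ H)))))) →
  w' = p ++ (Y ++ (X ++ (F ++ (X ++ (G ++ (Y ++ H)))))) → (∀ c ∈ G, 2 ≤ w.count c) →
    (WC ν m nc w → nn w ν.x ν.y = 1 → ¬ (ν.x ∈ X ∧ ν.y ∈ Y) → nn w' ν.x ν.y = 1) ∧
    (WC ν m nc w' → nn w' ν.x ν.y = 1 → nn w ν.x ν.y = 1)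

/-- MPO (medium).  **Main case, positions.**  `x ∈ X`, `y ∈ Y`: the lights are in `G`.
Proof.  `a ∉ X, Y, G`; `x` occurs twice, `nn w x a = 1`, so `a ∈ F` or `a ∈ p` or `a ∈ H`; `a ∈ p` is
impossible (`x ∈ X`, `y ∈ Y` are behind, so the `x` in front of `a` and these two give
... more precisely: then all of `X Y F X G Y` is behind `a`; the first `y` is in front of `a`, `xl`,
`yl`: let `μ = L i`; the second `X` contains `x`, so it is in front of the first `μ` up to this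
`x`: `μ` is behind the first `Y`, and `nn w y μ = 1` would be violated: the first `y` (in `p`) and
the `y ∈ Y`).  `a ∈ H`: `X` twice in front of `a`, `nn w x a ≥ 2`.  So `a ∈ F`, `p, X, Y` are in front of
`a`, `L i ∉ p, X, Y` (`l0`).  `L i ∉ F`: otherwise the `x` in the second `X` is behind the first
`L i`, contradiction to `xl`.  `L i ∈ w` (`l2`); if `L i ∉ G` then the first `L i` is in `H`, and `y`
occurs twice in front of it (two times `Y`), contradiction to `yl`.  So `L i ∈ G`,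
`pre w (L i) = p ++ X ++ Y ++ F ++ X ++ pre G (L i)`.  `b ∉ X, Y, G`; `b` in `p ++ X ++ Y ++ F` is
impossible (`lb`: `L i` in front of `b`), so `b ∈ H`, and `G.count (L i) ≤ nn w (L i) b = 1`.
Contents: `C i ∈ w`.  (`cl0`, `j ≤ i`): `C i ∉ pre w (L j)`, in particular `C i ∉ p, X, Y, F`
and `C i ∉ pre G (L j)`.  (`cl1`, `j > i`): all `C i` are in `pre w (L j)`, so `C i ∈ pre G (L j)` and
`C i ∉ H`. -/
def MpoStmt : Prop := ∀ (ν : Nm) (m nc : ℕ), nc ≤ m + 1 → ∀ (p X Y F G H w : List ℕ),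
  w = p ++ (X ++ (Y ++ (F ++ (X ++ (G ++ (Y ++ H)))))) → (∀ c ∈ G, 2 ≤ w.count c) →
    WC ν m nc w → ν.x ∈ X → ν.y ∈ Y →
      ν.a ∈ F ∧ ν.b ∈ H ∧
      (∀ i ≤ m + 1, ν.L i ∉ p ∧ ν.L i ∉ X ∧ ν.L i ∉ Y ∧ ν.L i ∉ F ∧ G.count (ν.L i) = 1 ∧
        pre w (ν.L i) = p ++ (X ++ (Y ++ (F ++ (X ++ pre G (ν.L i)))))) ∧
      (∀ i < nc, ν.C i ∉ H ∧ (∀ j ≤ i, ν.C i ∉ pre G (ν.L j)) ∧
        (∀ j, i < j → j ≤ m + 1 → ν.C i ∈ pre G (ν.L j)))

/-- MCV (medium, uses MPO, `cov`).  **Main case, covering.**  The pins `g i` (`i < m + 2`) occur again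
in `H`, the contents `h i` occur twice in `G`.
Proof.  `cov` with `L`, `N = m + 2`.  Counts: MPO.  Order: for `i < j ≤ m + 1`, `i < nc`:
`C i ∈ pre G (L j)` and `C i ∉ pre G (L i)`, so `L i ∈ pre G (L j)` (`MWK.pre_of_count`).  The only
other pair is `i = m`, `j = m + 1`, `nc = m`: assumption.  Contents: `L j ∈ h i` would give
`2 ≤ G.count (L j)`.  Pins: suppose `L j, L j' ∈ g i`, `j < j'`.  Case `j < nc`: write
`G = u ++ g i ++ v` (`gh`); `L j, L j' ∉ u` (count 1), `pre G (L j) = u ++ pre (g i) (L j)`, the same for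
`j'`; `C j ∈ pre G (L j')`, `C j ∉ pre G (L j)`, so `C j ∉ u`, `C j ∈ g i`, so `C j ∈ H`, contradiction
to MPO.  Case `j = m`, `j' = m + 1`, `nc = m`: assumption.  Conclusion for `C i`, `i < nc`: `C i` is
in `pre G (L (i+1))`, not in `pre G (L i)`, `L i ∈ g i`, `L (i+1) ∈ g (i+1)`; `G = u ++ g i ++ h i ++
g (i+1) ++ v` with `L i ∉ u`, so `C i ∈ g i ++ h i ++ g (i+1)`, and `C i` is not in a `g`
(otherwise in `H`). -/
def McvStmt : Prop := ∀ (ν : Nm) (m nc : ℕ), m ≤ nc → nc ≤ m + 1 → ∀ (p X Y F G H w : List ℕ),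
  w = p ++ (X ++ (Y ++ (F ++ (X ++ (G ++ (Y ++ H)))))) → (∀ c ∈ G, 2 ≤ w.count c) →
    WC ν m nc w → ν.x ∈ X → ν.y ∈ Y → ∀ g h : ℕ → List ℕ, G = gh g h (m + 2) →
      (∀ i < m + 2, ∀ c ∈ g i, c ∈ H) → (∀ i < m + 2, ∀ c ∈ h i, 2 ≤ G.count c) →
      (nc = m → ∀ i < m + 2, ¬ (ν.L m ∈ g i ∧ ν.L (m + 1) ∈ g i)) →
      (nc = m → ν.L m ∈ pre G (ν.L (m + 1))) →
        (∀ i < m + 2, ν.L i ∈ g i) ∧ (∀ i < nc, ν.C i ∈ h i)

/-- HZE (medium, uses MPO).  A factor `E` of `H` which contains `z = L m` and `z' = L (m+1)` (in this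
order or not) in a word with the conditions of both levels contains the first light `μ` of level 2,
which is not in `G`.
Proof.  Let `μ = (N2 m).L 0`; `nn w z μ = w.count z` and `nn w z' μ = 1` (`K0.c2`, `xl`, `yl`).
`w = P ++ (H1 ++ (E ++ H2))` with `P = p X Y F X G Y`, `z' ∈ G` (MPO).  `z ∈ E` is in front of
the first `μ`, so `μ ∉ P`, `μ ∉ H1`, and `μ ∈ E` or `E` is completely in front of the first `μ`; in the
second case `z'` occurs twice in front of `μ` (in `G` and in `E`), contradiction.  So `μ ∈ E`, and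
`μ ∉ G` since `μ ∉ P`. -/
def HzeStmt : Prop := ∀ (τ : List ℕ) (m : ℕ) (p X Y F G H H1 E H2 w : List ℕ),
  w = p ++ (X ++ (Y ++ (F ++ (X ++ (G ++ (Y ++ H)))))) → (∀ c ∈ G, 2 ≤ w.count c) →
    K0 τ m w → 0 ∈ X → 1 ∈ Y → H = H1 ++ (E ++ H2) → N1.L m ∈ E → N1.L (m + 1) ∈ E →
      (N2 m).L 0 ∈ E ∧ (N2 m).L 0 ∉ G

/-- FOR (medium).  **Form of the instances.**  For a substitution `f` the words of the pentagon have
the form used in the steps.
Proof.  `List.flatMap_append`, `List.flatMap_cons`.  (1) The first two factors are `f 0`, `f 1` (or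
exchanged), `F = f 2`, then `f 0`, then
`G = (bd .. ++ two lights).flatMap f = gh g h (m + 2)` (`gh_succ` twice, `(bd ..).flatMap f` is the
`flatMap` over `range m`), then `f 1`, and `H` the rest.  `H` contains `f (L i)` for `i ≤ m + 1`
as a factor (block of `i`, resp. of `m`, in the tails 1, `τ.flatMap`, `m ∈ τ`), and
`H = H1 ++ f (L m) ++ H2 ++ f (L (m+1)) ++ H3` (the block of `m`).
(2) The two lights are `Z = f (L m)`, `Z' = f (L (m+1))`, in front of them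
`P = f 0 ++ f 1 (or exchanged) ++ f 2 ++ f 0 ++ (bd).flatMap f`; behind them `F = f 1 ++ f 3 ++
((pre τ m).flatMap ..).flatMap f ++ f (S m)`, then `Z`, `G = ((bd of level 2 with m + 1) ++
[L2 (m+1)]).flatMap f`, `Z'`, and the rest `H`.  It contains every `f (L2 i)` (`i ≤ m + 1`) and
`f (L2 m) ++ f (L2 (m+1))` as factors (tails 2). -/
def ForStmt : Prop := ∀ (τ : List ℕ) (m : ℕ), Tau τ m → ∀ (f : ℕ → List ℕ),
  (∀ o' : Bool, ∃ H : List ℕ,
    (∀ o : Bool, (w0 τ m o o').flatMap f = (if o then f 0 ++ f 1 else f 1 ++ f 0) ++ (f 2 ++ (f 0 ++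
      (gh (fun i => if i < m then f (N1.L i) else if decide (i = m) = o' then f (N1.L m) else
          f (N1.L (m + 1)))
        (fun i => if i < m then f (N1.C i) ++ f (N1.C i) else []) (m + 2) ++ (f 1 ++ H))))) ∧
    (∀ i ≤ m + 1, ∃ H1 H2, H = H1 ++ (f (N1.L i) ++ H2)) ∧
    (∃ H1 H2 H3, H = H1 ++ (f (N1.L m) ++ (H2 ++ (f (N1.L (m + 1)) ++ H3))))) ∧
  (∀ o : Bool, ∃ P F H : List ℕ,
    (∀ o' : Bool, (w0 τ m o o').flatMap f = P ++ ((if o' then f (N1.L m) ++ f (N1.L (m + 1)) else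
      f (N1.L (m + 1)) ++ f (N1.L m)) ++ (F ++ (f (N1.L m) ++
      (gh (fun i => f ((N2 m).L i)) (fun i => if i < m + 1 then f ((N2 m).C i) ++ f ((N2 m).C i)
        else []) (m + 2) ++ (f (N1.L (m + 1)) ++ H)))))) ∧
    (∀ i ≤ m + 1, ∃ H1 H2, H = H1 ++ (f ((N2 m).L i) ++ H2)) ∧
    (∃ H1 H2, H = H1 ++ (f ((N2 m).L m) ++ (f ((N2 m).L (m + 1)) ++ H2))))

/-- MC1 (medium, uses FOR, MCV).  In `Kc` the exchange of `f 0`, `f 1` does not touch `z, z'`.
Proof.  FOR (1), `p` in front and `q` behind (`H` becomes `H ++ q`).  The letters of `G` occur at least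
twice (the pins occur again in `H`, the contents are doubled).  Suppose `z = L m ∈ f 0`,
`z' = L (m+1) ∈ f 1` (`z = (N2 m).x`, `z' = (N2 m).y`).  MCV for `N2 m`, `nc = m + 1`: `C m ∈ h m`,
but `h m = []`. -/
def Mc1Stmt : Prop := ∀ (τ : List ℕ) (m : ℕ), Tau τ m → ∀ (o' : Bool) (f : ℕ → List ℕ)
  (p q : List ℕ), Kc τ m (p ++ (w0 τ m true o').flatMap f ++ q) →
    ¬ (N1.L m ∈ f 0 ∧ N1.L (m + 1) ∈ f 1)

/-- MC2 (medium, uses FOR, MCV, MPO, HZE).  In `Kb ∩ Kc` the exchange of `f 0`, `f 1` in the word with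
`z' z` does not touch `0, 1`.
Proof.  Suppose `0 ∈ f 0`, `1 ∈ f 1`.  FOR (1) with `o' = false`: the pins are `f (L i)` (`i < m`),
`g m = f (L (m+1))`, `g (m+1) = f (L m)`, all of them are factors of `H`.  MCV for `N1`, `nc = m`: the
condition on `L m, L (m+1) ∈ g i`: HZE with `E = g i` gives `μ ∈ g i` and `μ ∉ G`, contradiction.
Order: `nn w z z' = 1` and MPO: `z ∈ pre w z' = .. ++ pre G z'`, `z ∉ p, X, Y, F`, so
`z ∈ pre G z'`.  MCV: `z ∈ g m = f (L (m+1))`, `z' ∈ g (m+1) = f (L m)`.  `H = H1 ++ f (L m) ++ H2 ++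
f (L (m+1)) ++ H3` (FOR): in `H` there is `z'` and behind it `z`.  All `z` are in front of the first
`μ` (`c2.xl`), so this `z'` and the `z' ∈ G` are in front of the first `μ`: contradiction to
`nn w z' μ = 1` (`c2.yl`). -/
def Mc2Stmt : Prop := ∀ (τ : List ℕ) (m : ℕ), Tau τ m → ∀ (f : ℕ → List ℕ) (p q : List ℕ),
  Kb τ m (p ++ (w0 τ m true false).flatMap f ++ q) →
  Kc τ m (p ++ (w0 τ m true false).flatMap f ++ q) → ¬ (0 ∈ f 0 ∧ 1 ∈ f 1)

/-- MC3 (medium, uses FOR, MCV, MPO, HZE).  In `Kb` the exchange of `f z`, `f z'` does not touch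
`0, 1`.
Proof.  Suppose `0 ∈ f (L m)`, `1 ∈ f (L (m+1))`.  FOR (2), `o' = true`: `X = f (L m)`,
`Y = f (L (m+1))`, pins `g i = f ((N2 m).L i)`, factors of `H`.  The condition on
`L m, L (m+1) ∈ g i`: HZE.  Both `L m`, `L (m+1)` are in `G` (MPO), different
(`nn w z μ ≥ 2`, `nn w z' μ = 1`), so one is in front of the other (`MWK.pre_total`).  If
`L m ∈ pre G (L (m+1))`: MCV for `N1`, `nc = m`: `L m ∈ g m`, `L (m+1) ∈ g (m+1)`.  Otherwise
`L (m+1) ∈ pre G (L m)`: MCV for the names `ν` with `L m` and `L (m+1)` exchanged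
(`ν = {N1 with L := fun i => if i = m then N1.L (m+1) else if i = m+1 then N1.L m else N1.L i}`):
`WC ν m m w` holds, because for `nc = m` all conditions are symmetric in `L m`, `L (m+1)`; so
`L (m+1) ∈ g m`, `L m ∈ g (m+1)`.  In both cases `E = g m ++ g (m+1)`, a factor of `H` (FOR), contains
`z` and `z'`, so (HZE) `μ ∈ E` and `μ ∉ G`, but `g m`, `g (m+1)` are in `G`: contradiction. -/
def Mc3Stmt : Prop := ∀ (τ : List ℕ) (m : ℕ), Tau τ m → ∀ (o : Bool) (f : ℕ → List ℕ)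
  (p q : List ℕ), Kb τ m (p ++ (w0 τ m o true).flatMap f ++ q) →
    ¬ (0 ∈ f (N1.L m) ∧ 1 ∈ f (N1.L (m + 1)))

/-- CLO (medium, uses FOR, WCX, SPX, MC1, MC2, MC3).  **The closure properties.**
Proof.  FOR gives the form `p' X Y F X G Y H'` resp. `p' Y X F X G Y H'`; the letters of `G` occur at
least twice (pins again in `H`, contents doubled).  `K0`: WCX four times.  Special orders: SPX for
`N1` and for `N2 m`; the forward direction uses MC1 (`Kc`, exchange of `0, 1`, special order `z, z'`),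
MC2 and MC1 (`Kb ∩ Kc`), MC3 (`Kb`, exchange of `L m, L (m+1)`, special order `0, 1`). -/
def CloStmt : Prop := ∀ (τ : List ℕ) (m : ℕ), Tau τ m → ∀ (f : ℕ → List ℕ) (p q : List ℕ),
  (∀ o' : Bool, Kc τ m (p ++ (w0 τ m true o').flatMap f ++ q) ↔
    Kc τ m (p ++ (w0 τ m false o').flatMap f ++ q)) ∧
  (∀ o : Bool, Kb τ m (p ++ (w0 τ m o true).flatMap f ++ q) ↔
    Kb τ m (p ++ (w0 τ m o false).flatMap f ++ q)) ∧
  ((Kb τ m (p ++ (w0 τ m true false).flatMap f ++ q) ∧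
      Kc τ m (p ++ (w0 τ m true false).flatMap f ++ q)) ↔
    (Kb τ m (p ++ (w0 τ m false false).flatMap f ++ q) ∧
      Kc τ m (p ++ (w0 τ m false false).flatMap f ++ q)))

/-- DPE (medium, uses VCL, SA1, SA2, CLO).  **Doubling pentagon.**
Proof.  Suppose `¬ Kap β τ m`.  `σ = gaml (Kb τ m)`, `τ' = gaml (Kc τ m)`, `K w := Kb τ m w ∧ Kc τ m w`,
`ρ = FIC.inf (gaml K) τ'`.  `β ≤ σ, τ', gaml K`: VCL, `le_gaml`.  With `w1 = w0 τ m true true`,
`w2 = w0 τ m true false`, `w1' = w0 τ m false true`, `w2' = w0 τ m false false`: `(w1, w2)`,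
`(w1', w2')` in `σ`; `(w1, w1')`, `(w2, w2')` in `τ'`; `(w2, w2')` in `gaml K` (CLO, `RR_gaml`).  So
`w1 ~σ w2 ~ρ w2' ~σ w1'`, `(w1, w1')` in `τ'`.  `pent` with `P = K`: `ρ` keeps `K` (`gaml_keep`), a
pair of `σ` and `τ'` keeps `Kb` and `Kc`.  `K w1`: SA1, SA2.  So `Kb w1'`, in particular
`nn w1' 0 1 = 1`, but `w1' = 1 :: 0 :: ..` and `pre w1' 1 = []`. -/
def DpeStmt : Prop := ∀ β : FIC, ModF β → Gz β → ∀ (m : ℕ) (τ : List ℕ), Tau τ m → Kap β τ m

/-- G3F (easy, uses DPE, CMW).  Modularity and `I1` imply `Cm^w`. -/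
def G3fStmt : Prop := ∀ β : FIC, ModF β → Gz β → MWZ.I1 1 (RR β) → MVO.Sys.F (RR β)

end Pool.Agent.MWGN
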